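import Pool.Agent.Helper11.PP.GoalsE
import Pool.Agent.Helper17.PP0.Defs

/-!
# Project PP (MP_fc6b1e_nt), the case `χ₀ = 1`: from finite to infinite sums
-/

namespace Pool.Agent.Helper77.PPO

open Pool.Agent.Helper11.PP Pool.Agent.Helper17.PP Pool.Agent.Helper17.PP0

open Classical in
/-- **D_SYS0**: `PP.D_SYS` for the abstract moment theorem without the weak condition. -/
def D_SYS0 : Prop :=
  ∀ (p : ℕ) [Fact p.Prime] (B B₀ k U Λ C : Type) [Field k] [Fintype k] [Algebra (ZMod p) k]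
    [AddCommGroup U] [Module k U] [Fintype U] [AddCommGroup Λ] [Module k Λ] [Fintype Λ]
    [AddCommGroup C] [Finite C] (S : Sys p B B₀ k U Λ C) (ψ : AddChar k ℂ)
    (g : ℝ → ℝ) (K : ℕ), Hyp₀ S ψ g K →
  ∀ c X₁ : ℝ, (∀ X : ℝ, X₁ ≤ X → ∃ P : Finset B, c * (X * g X) ≤
      ∑ b ∈ P.powerset with S.Fam b, Real.exp (-(S.nm b / X))) →
  (∀ X : ℝ, 0 < X → (Summable fun b : {b : Finset B // S.Fam b} ↦
      Real.exp (-(S.nm b.1 : ℝ) / X)) ∧
    ∑' b : {b : Finset B // S.Fam b}, Real.exp (-(S.nm b.1 : ℝ) / X) ≤ K * (X * g X)) ∧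
  (∀ X : ℝ, 0 < X → X₁ ≤ X → c * (X * g X) ≤
    ∑' b : {b : Finset B // S.Fam b}, Real.exp (-(S.nm b.1 : ℝ) / X)) ∧
  ∀ η : ℝ, 0 < η → ∃ X₀ : ℝ, ∀ X : ℝ, X₀ ≤ X →
    ∑' b : {b : {b : Finset B // S.Fam b} | S.Bad b.1}, Real.exp (-(S.nm b.1.1 : ℝ) / X) ≤
      (Fintype.card U / Fintype.card Λ) * (Fintype.card k / (Fintype.card k - 1)) *
        ∑' b : {b : Finset B // S.Fam b}, Real.exp (-(S.nm b.1 : ℝ) / X) + η * (X * g X)

section

variable {p : ℕ} {B B₀ k U Λ C : Type} [Field k] [Fintype k] [Algebra (ZMod p) k]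
    [AddCommGroup U] [Module k U] [AddCommGroup Λ] [Module k Λ]
    [AddCommGroup C] (S : Sys p B B₀ k U Λ C)

/-- The bound for all finite sums over a power set. -/
lemma bound {ψ : AddChar k ℂ} {g : ℝ → ℝ} {K : ℕ}
    (hS : Hyp₀ S ψ g K) {X : ℝ} (hX : 0 < X) (P : Finset B) :
    ∑ b ∈ P.powerset, Real.exp (-(S.nm b : ℝ) / X) ≤ K * (X * g X) := by
  have h := hS.ht (fun _ ↦ 1) (fun q ↦ ⟨zero_le_one, by
    have : (0 : ℝ) ≤ Fintype.card k := Nat.cast_nonneg _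
    linarith⟩) X hX P
  simp only [Finset.prod_const_one, one_mul, sub_self, zero_div, Finset.sum_const_zero,
    Real.exp_zero, mul_one] at h
  have hg := hS.g_one X
  have hK : (0 : ℝ) ≤ K := Nat.cast_nonneg _
  refine le_trans (le_of_eq ?_) (h.trans ?_)
  · exact Finset.sum_congr rfl fun b _ ↦ by rw [neg_div]
  · have h1 : X * min 1 X * g X ≤ X * g X := by
      have h2 : min 1 X ≤ 1 := min_le_left _ _
      have h3 : 0 ≤ X * g X := mul_nonneg hX.le (by linarith)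
      nlinarith
    exact mul_le_mul_of_nonneg_left h1 hK

open Classical in
/-- A finite sum over an injective image of finite sets is at most a sum over a power set. -/
lemma sum_le {J : Type} (v : J → Finset B) (hv : Function.Injective v) (Q : Finset B → Prop)
    (hQ : ∀ j, Q (v j)) (f : Finset B → ℝ) (hf : ∀ b, 0 ≤ f b) (s : Finset J) :
    ∑ j ∈ s, f (v j) ≤ ∑ b ∈ (s.biUnion v).powerset with Q b, f b := by
  rw [← Finset.sum_image (f := f) (s := s) (g := v) (fun x _ y _ h ↦ hv h)]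
  refine Finset.sum_le_sum_of_subset_of_nonneg ?_ fun b _ _ ↦ hf b
  intro b hb
  obtain ⟨j, hj, rfl⟩ := Finset.mem_image.1 hb
  exact Finset.mem_filter.2 ⟨Finset.mem_powerset.2 (Finset.subset_biUnion_of_mem v hj), hQ j⟩

end

theorem d_sys0 (h1 : MT₀) : D_SYS0 := by
  classical
  intro p _ B B₀ k U Λ C _ _ _ _ _ _ _ _ _ _ _ S ψ g K hS c X₁ hc
  have hexp : ∀ (X : ℝ) (b : Finset B), 0 ≤ Real.exp (-(S.nm b : ℝ) / X) := fun X b ↦
    (Real.exp_pos _).le
  have hfin : ∀ X : ℝ, 0 < X → ∀ s : Finset {b : Finset B // S.Fam b},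
      ∑ b ∈ s, Real.exp (-(S.nm b.1 : ℝ) / X) ≤ K * (X * g X) := by
    intro X hX s
    refine (sum_le (fun b : {b : Finset B // S.Fam b} ↦ b.1) Subtype.val_injective (fun _ ↦ True)
      (fun _ ↦ trivial) (fun b ↦ Real.exp (-(S.nm b : ℝ) / X)) (hexp X) s).trans ?_
    rw [Finset.filter_true]
    exact bound S hS hX _
  have hsum : ∀ X : ℝ, 0 < X → Summable fun b : {b : Finset B // S.Fam b} ↦
      Real.exp (-(S.nm b.1 : ℝ) / X) := fun X hX ↦
    summable_of_sum_le (fun b ↦ hexp X b.1) (hfin X hX)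
  -- finite sums over the family are at most the infinite sum
  have hle : ∀ X : ℝ, 0 < X → ∀ P : Finset B,
      ∑ b ∈ P.powerset with S.Fam b, Real.exp (-(S.nm b : ℝ) / X) ≤
        ∑' b : {b : Finset B // S.Fam b}, Real.exp (-(S.nm b.1 : ℝ) / X) := by
    intro X hX P
    have h2 : ∑ b ∈ P.powerset with S.Fam b, Real.exp (-(S.nm b : ℝ) / X) =
        ∑ b ∈ (P.powerset.subtype S.Fam), Real.exp (-(S.nm b.1 : ℝ) / X) := by
      rw [← Finset.sum_subtype_eq_sum_filter]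
    rw [h2]
    exact (hsum X hX).sum_le_tsum _ fun b _ ↦ hexp X b.1
  refine ⟨fun X hX ↦ ⟨hsum X hX, (hsum X hX).tsum_le_of_sum_le (hfin X hX)⟩, ?_, ?_⟩
  · intro X hX hX1
    obtain ⟨P, hP⟩ := hc X hX1
    refine hP.trans (le_trans (le_of_eq ?_) (hle X hX P))
    exact Finset.sum_congr rfl fun b _ ↦ by rw [neg_div]
  · intro η hη
    obtain ⟨X₀, h0⟩ := h1 p B B₀ k U Λ C S ψ g K hS η hη
    refine ⟨max X₀ 1, fun X hX ↦ ?_⟩
    have hX0 : X₀ ≤ X := (le_max_left _ _).trans hX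
    have hXp : 0 < X := lt_of_lt_of_le one_pos ((le_max_right _ _).trans hX)
    have hk1 : (1 : ℝ) < Fintype.card k := by
      exact_mod_cast Fintype.one_lt_card
    have hθ : 0 ≤ ((Fintype.card U : ℝ) / Fintype.card Λ) *
        (Fintype.card k / (Fintype.card k - 1)) :=
      mul_nonneg (div_nonneg (Nat.cast_nonneg _) (Nat.cast_nonneg _))
        (div_nonneg (by linarith) (by linarith))
    refine Real.tsum_le_of_sum_le (fun b ↦ hexp X b.1.1) fun s ↦ ?_
    refine (sum_le (fun b : {b : {b : Finset B // S.Fam b} | S.Bad b.1} ↦ b.1.1)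
      (Subtype.val_injective.comp Subtype.val_injective) (fun b ↦ S.Fam b ∧ S.Bad b)
      (fun b ↦ ⟨b.1.2, b.2⟩) (fun b ↦ Real.exp (-(S.nm b : ℝ) / X)) (hexp X) s).trans ?_
    have h2 := h0 X hX0 (s.biUnion fun b ↦ b.1.1)
    have h3 := hle X hXp (s.biUnion fun b ↦ b.1.1)
    have e1 : ∀ b : Finset B, Real.exp (-((S.nm b : ℝ) / X)) = Real.exp (-(S.nm b : ℝ) / X) :=
      fun b ↦ by rw [neg_div]
    simp only [e1] at h2
    refine le_trans (le_of_eq ?_) (h2.trans ?_)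
    · congr!
    have h4 := mul_le_mul_of_nonneg_left h3 hθ
    linarith

end Pool.Agent.Helper77.PPO
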