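import Pool.Agent.Helper77.PPO.SV
import Pool.Agent.Helper77.PPO.DSYS0
import Pool.Agent.Helper77.PPS.HYP
import Pool.Agent.Helper42.PP1.Goals3
import Pool.Agent.Helper12.PP.BKAP
import Pool.Agent.Helper42.PP1.One
import Pool.Agent.Helper14.RD.TOW
import Pool.Agent.Helper11.LE.Goals1

/-!
# Project PP (MP_fc6b1e_nt), the case `χ₀ = 1`: the analytic hypotheses of the systems of part B
-/

namespace Pool.Agent.Helper77.PPO

open NumberField Polynomial Module IsDedekindDomain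
open Pool.Agent.Helper51.RP Pool.Agent.Helper51.SigLeo Pool.Agent.Helper77.PPS
open Pool.Agent.Helper42.PP (Spl Base)
open Pool.Agent.Helper42.PP1 (SitW NTV TauN sysN W_BLU W_SM W_KUM W_LAB)
open Pool.Agent.Helper17.PP (Sys)
open Pool.Agent.Helper17.PP0 (Hyp₀)
open Pool.Agent.Helper51.PP (A2_BL1)
open Pool.Agent.Helper94.PP (A1_UNB)
open Pool.Agent.Helper76.PP (psK)
open Pool.Agent.Helper11.PP (Slow)
open Pool.Agent.Helper11.LE (L_CYC Cyc)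

open Classical in
/-- **HYPN** (the analytic hypotheses for the systems `sysN`, without the primes which are not split). -/
def HYPN : Prop :=
  ∀ (p : ℕ) [Fact p.Prime] (k : Type) [NormedField k] [NormedAlgebra ℚ_[p] k]
    (K M K₁ M₁ : Type) [Field K] [NumberField K]
    [Field M] [NumberField M] [Field K₁] [NumberField K₁] [IsTotallyComplex K₁] [Field M₁]
    [NumberField M₁] [IsTotallyComplex M₁] [Algebra K M] [Algebra K K₁] [Algebra K M₁]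
    [Algebra M M₁] [Algebra K₁ M₁]
    (ε : K₁) (δ : M ≃ₐ[K] M) (P : (ZMod p)[X]) [Fact (Irreducible P)] [Fintype (AdjoinRoot P)],
    SitW p K M K₁ M₁ ε δ P → NTV p M₁ ε δ P →
  ∀ B : Base p K M K₁ M₁ ε δ P,
  ∃ (g : ℝ → ℝ) (K₀ : ℝ), Slow g K₀ ∧
  ∀ (L : IwasawaLog p k) (T : Set (K →+* k)) (aτ : K₁ˣ) (n : ℕ) (E : TauN n B L T aτ),
    OmType p K ε (aτ : K₁) →
  ∃ (ψ : AddChar (AdjoinRoot P) ℂ) (K' : ℕ), Hyp₀ (sysN B E) ψ g K' ∧
  ∃ c X₁ : ℝ, 0 < c ∧ ∀ X : ℝ, X₁ ≤ X → ∃ Q : Finset B.LP, c * (X * g X) ≤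
    ∑ b ∈ Q.powerset with (sysN B E).Fam b, Real.exp (-((sysN B E).nm b / X))

theorem hypN (n1 : N_LAB) (n2 : H_CHE) (n3 : H_HT) (n4 : H_MER) (n5 : H_G) (l1 : P_LAB)
    (l2 : N_CHB) (l3 : N_CHS) (l4 : N_SPL) (b1 : A2_BL1) (b2 : A1_UNB) (w1 : W_BLU) (w2 : W_SM)
    (w3 : W_KUM) (w4 : W_LAB) : HYPN := by
  classical
  intro p _ k _ _ K M K₁ M₁ _ _ _ _ _ _ _ _ _ _ _ _ _ _ _ ε δ P _ _ hs hnt B
  have := hs.st1
  have := hs.st2
  have := hs.gM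
  have := hs.gK
  have := hs.gMK
  have hdv := Pool.Agent.Helper14.RD.finrank_dvd_pred p K K₁ ε hs.prim hs.gen
  have hp1 : 1 < p := (Fact.out : p.Prime).one_lt
  have hd0 : 0 < finrank K K₁ := finrank_pos
  set κ : ℝ := ((p : ℝ) - 1) / finrank K K₁ with hκ
  have hκ1 : 1 ≤ κ := by
    rw [hκ, le_div_iff₀ (by exact_mod_cast hd0), one_mul]
    have h : finrank K K₁ ≤ p - 1 := Nat.le_of_dvd (by omega) hdv
    have h' : ((finrank K K₁ : ℕ) : ℝ) ≤ ((p - 1 : ℕ) : ℝ) := by exact_mod_cast h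
    rwa [Nat.cast_sub hp1.le, Nat.cast_one] at h'
  obtain ⟨g1, g2, g3, -⟩ := n5 κ hκ1
  have h2k : (1 : ℝ) ≤ 2 ^ (κ - 1) := Real.one_le_rpow (by norm_num) (by linarith)
  refine ⟨gK κ, 2 ^ (κ - 1), ⟨g1, fun Y X h ↦ ?_, fun X _ ↦ g3 X⟩, ?_⟩
  · calc gK κ Y ≤ gK κ X := g2 Y X h
      _ = 1 * gK κ X := (one_mul _).symm
      _ ≤ 2 ^ (κ - 1) * gK κ X :=
        mul_le_mul_of_nonneg_right h2k (by linarith [g1 X])
  intro L T aτ n E haτ
  obtain ⟨tr, htr⟩ := Pool.Agent.Helper12.PP.kap_tr p P hs.irr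
  obtain ⟨ψ₁, hψ₁⟩ := Pool.Agent.Helper12.PP.kap_ex p
  have hpsK : psK tr ψ₁ ≠ 1 := by
    intro h
    apply one_ne_zero (α := ZMod p)
    apply Pool.Agent.Helper12.PP.kap_psi p ψ₁ hψ₁
    obtain ⟨x, hx⟩ := Pool.Agent.Helper12.PP.kap_surj p P tr htr 1
    have h1 := DFunLike.congr_fun h x
    rw [← hx]
    exact h1
  obtain ⟨Ka, hKa⟩ := sv0 p k K M K₁ M₁ ε δ P B L T aτ n E n1 n2 n3 n4 n5 hdv
    ((Fintype.card (AdjoinRoot P) : ℝ) + 4)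
  have hSVa := hKa Ka le_rfl
  obtain ⟨X1, hC1, hV1⟩ := w1 p k K M K₁ M₁ ε δ P hs hnt B L T aτ n E tr ψ₁ htr hψ₁
  obtain ⟨Kb, hKb1, hKb⟩ := b1 p B.LP (HeightOneSpectrum (𝓞 K)) (AdjoinRoot P)
    (Fin B.r → AdjoinRoot P) (Fin n → AdjoinRoot P) (Fin B.t → ZMod p) (sysN B E) (psK tr ψ₁) M₁
    (b2 M₁) Ka (Fintype.card (ZMod p)ˣ) hSVa.che (fun b₀ ↦ fib_bound B b₀) (ZMod p)ˣ
    (fun q ↦ q.1.2) _ _ _ _ X1 hC1 hV1
  obtain ⟨Kd, hKd1, hKd⟩ := w2 p k K M K₁ M₁ ε δ P hs B L T aτ n E tr ψ₁ htr hψ₁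
  set K' : ℕ := max (max Ka Kb) Kd with hK'
  have hKa' : Ka ≤ K' := (le_max_left _ _).trans (le_max_left _ _)
  have hKb' : Kb ≤ K' := (le_max_right _ _).trans (le_max_left _ _)
  have hKd' : Kd ≤ K' := le_max_right _ _
  have hSV := hKa K' hKa'
  refine ⟨psK tr ψ₁, K', ?_, ?_⟩
  · exact
      { one_le := hSV.one_le
        ψ_ne := hpsK
        che := hSV.che
        g_one := hSV.g_one
        g_mono := hSV.g_mono
        ht := hSV.ht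
        mers := hSV.mers
        sm := by
          have h := hKd K' hKd'
          unfold Pool.Agent.Helper76.PP.SmF at h
          intro D y χ n hn hD hinj hne hx
          have h' := h D y χ n hn hD hinj hne hx
          convert h' using 2
          ext q
          simp only [Finset.mem_filter]
        kum := w3 p k K M K₁ M₁ ε δ P hs B L T aτ n E
        bl₁ := by
          intro i j t y c α β Y hj ht hY hα hβ hD
          refine (hKb i j t y c α β Y hj ht hY hα hβ hD).trans ?_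
          have hm := mono_bound Kb K' i j (min i j) (Real.exp (-((2 : ℝ) ^ (i + j) / (2 * Y))))
            ((i : ℝ) + 1) hKb1 hKb' (Real.exp_pos _).le (by linarith [Nat.cast_nonneg (α := ℝ) i])
          rw [Nat.cast_min] at hm
          exact hm }
  · obtain ⟨-, -, -, hγ⟩ := w4 p k K M K₁ M₁ ε δ P hs L T B aτ n E haτ
    obtain ⟨b, hb1, hb2⟩ := hγ (sysN B E).cl₀
    exact low p k K M K₁ M₁ ε δ P B L T aτ n E l1 l2 l3 l4 ⟨b, hb1, hb2⟩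

open Classical in
/-- **HYP0** (interface with part D; the case `M = K`, `χ₀ = 1`). -/
def HYP0 : Prop :=
  ∀ (p : ℕ) [Fact p.Prime] (K K₁ : Type) [Field K] [NumberField K]
    [Field K₁] [NumberField K₁] [Algebra K K₁] (ε : K₁), Cyc p K K₁ ε →
    (¬ ∃ ξ : K, IsPrimitiveRoot ξ p) →
  ∀ [Fact (Irreducible (X - 1 : (ZMod p)[X]))] [Fintype (AdjoinRoot (X - 1 : (ZMod p)[X]))]
    (B : Base p K K K₁ K₁ ε (1 : K ≃ₐ[K] K) (X - 1 : (ZMod p)[X])),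
  ∃ (g : ℝ → ℝ) (K₀ : ℝ), Slow g K₀ ∧
  ∀ (L : IwasawaLog p ℂ_[p]) (T : Set (K →+* ℂ_[p])) (aτ : K₁ˣ) (n : ℕ) (E : TauN n B L T aτ),
    OmType p K ε (aτ : K₁) →
  ∃ (ψ : AddChar (AdjoinRoot (X - 1 : (ZMod p)[X])) ℂ) (K' : ℕ), Hyp₀ (sysN B E) ψ g K' ∧
  ∃ c X₁ : ℝ, 0 < c ∧ ∀ X : ℝ, X₁ ≤ X → ∃ Q : Finset B.LP, c * (X * g X) ≤
    ∑ b ∈ Q.powerset with (sysN B E).Fam b, Real.exp (-((sysN B E).nm b / X))

/-- A field without primitive `p`-th roots of unity has `p ≠ 2`. -/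
theorem p_ne_two (p : ℕ) (K : Type) [Field K] [NumberField K]
    (h : ¬ ∃ ξ : K, IsPrimitiveRoot ξ p) : p ≠ 2 := by
  rintro rfl
  exact h ⟨-1, IsPrimitiveRoot.neg_one 0 (by norm_num)⟩

theorem hyp0 (h1 : HYPN) (h2 : L_CYC)
    (h3 : ∀ (p : ℕ) [Fact p.Prime] (K K₁ : Type) [Field K] [NumberField K]
      [Field K₁] [NumberField K₁] [Algebra K K₁] (ε : K₁), Cyc p K K₁ ε →
      (¬ ∃ ξ : K, IsPrimitiveRoot ξ p) → NTV p K₁ ε (1 : K ≃ₐ[K] K) (X - 1 : (ZMod p)[X])) :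
    HYP0 := by
  intro p _ K K₁ _ _ _ _ _ ε hC hμ _ _ B
  have := hC.gal
  have : IsTotallyComplex K₁ := (h2 p K K₁ ε hC).2.2.2 (p_ne_two p K hμ)
  exact h1 p ℂ_[p] K K K₁ K₁ ε 1 (X - 1)
    (Pool.Agent.Helper42.PP1.sitW_one p K K₁ ε hC.prim hC.gen) (h3 p K K₁ ε hC hμ) B

end Pool.Agent.Helper77.PPO
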