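import Pool.Agent.Helper77.PPO.Goals1
import Pool.Agent.Helper77.PPL.Goals

/-!
# Project PP (MP_fc6b1e_nt, density theorem): from classes to fields; the case `χ₀ = 1`

`O_ASM` is the common last step of `D_DEN`, `PPL.D_DENF` and `O_DENF`.
-/

namespace Pool.Agent.Helper77.PPO

open NumberField Polynomial Module IsDedekindDomain TensorProduct Pool.Agent.Helper51.SigLeo
open Pool.Agent.Helper51.RP Pool.Agent.Helper42.RD Pool.Agent.Helper11.LE Pool.Agent.Helper11.PP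
open Pool.Agent.Helper77.RL (Sqr AtT Adm TwistAll)

/-- **O_ASM** (from classes to fields). `nf` is a map as in `PP.D_MAP` (the map from the classes to the fields),
`Bd r`, `r < n`, are sets of classes, `G` is a set of fields; the classes `c ∈ ASet` with `nf c ∉ G` are in some
`Bd r`. The classes are as in the conclusion of `PP.MOM`, with the constant `θ` for every `Bd r`. Then (1) the
Abel means of the `N ∈ CycF`, `N ∉ G`, are asymptotically at most `n θ` times those of all `N ∈ CycF`. (2) If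
`n θ < 1` a positive proportion of all cyclic `N/K` of degree `p` is in `CycF` and in `G`.

PROOF (from `PP.D_CMP`, `PP.D_NAT`, `PP.D_BFN`). `p - 1 ≥ 1`. *Fibres.* For `N ∈ CycF` (so `N ∈ CycN`) the set
`{c ∈ BSet : nf c = N}` has exactly `p - 1` elements, so it is finite and not empty, and all its elements are in
`ASet`; conversely `nf c ∈ CycF` for `c ∈ ASet` (`c ∈ BSet`: `ASet ⊆ BSet`), and `condC K c = cond K (nf c)`. So for
every `Y ⊆ CycF`: `(p - 1) ∑_{N ∈ Y} e^(-cond N/X) = ∑_{c ∈ ASet, nf c ∈ Y} e^(-condC c/X)` (the family over `CycF`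
is summable: choose a `c` above every `N`, an injective map; then sum over the fibres of `nf : ASet → CycF`,
`Summable.tsum_sigma'` and `Equiv.sigmaFiberEquiv`), and for the finite counting functions
`(p - 1) #{N ∈ Y : cond N ≤ X} = #{c ∈ ASet : nf c ∈ Y, condC c ≤ X}`.
(1) With `Y = {N ∈ CycF : N ∉ G}`: the sum over the `c ∈ ASet` with `nf c ∉ G` is at most the sum over `r` of the
sums over the `c ∈ ASet ∩ Bd r` (nonnegative terms; if `n = 0` there are no such `c`). For every `r` take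
`η' = η/(n + 1)`; eventually the total is at most `n (θ + η') ∑_{c ∈ ASet} ≤ (n θ + η) ∑_{c ∈ ASet}`; divide by
`p - 1`.
(2) `D_BFN` gives the finiteness. Let `η = (1 - n θ)/2 > 0`, `θ' = n θ + η < 1`. `D_NAT` for `ι = CycF p K`,
`f N = cond K N` (finite sublevel sets: the counting formula or `D_BFN`; doubling: from that of the classes, since
`(p - 1) #{N : f N ≤ X} = #{c ∈ ASet : condC c ≤ X}`), `G' = {N : CycF | N ∈ G}`, `θ'` and `X₀` so large that the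
inequality (1) and the doubling hold for `X ≥ X₀`: there are `c₀ > 0`, `X₁` with
`c₀ A(X) ≤ #{N ∈ CycF : N ∈ G, f N ≤ X}` for `X ≥ X₁`, `A(X) = #{N ∈ CycF : f N ≤ X}`. `D_CMP`: there is `C ∈ ℕ` with
`#{N ∈ CycN : cond ≤ X} ≤ C (A(C X) + 1)`, and with `2^l ≥ C` the doubling property gives
`A(C X) ≤ A(2^l X) ≤ C₂^l A(X)` for `X ≥ X₀`, `X > 0` (`C₂` the doubling constant; `C₂ ≥ 1` or `A = 0`; monotonicity
of `A`). `A(X) ≥ 1` for large `X` since `CycF` is not empty (`ASet` is infinite). So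
`#{N ∈ CycN : cond ≤ X} ≤ C (C₂^l + 1) A(X)` for large `X ∈ ℕ`, and it is positive. -/
def O_ASM : Prop :=
  ∀ (p : ℕ) [Fact p.Prime] (K K₁ : Type) [Field K] [NumberField K] [Field K₁] [NumberField K₁]
    [Algebra K K₁] (ε : K₁) (nf : ClP p K₁ → IntermediateField K (AlgebraicClosure K)),
    (∀ c ∈ BSet p K ε, nf c ∈ CycN p K) →
    (∀ N ∈ CycN p K, {c | c ∈ BSet p K ε ∧ nf c = N}.ncard = p - 1) →
    (∀ c ∈ BSet p K ε, (c ∈ ASet p K ε ↔ nf c ∈ CycF p K)) →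
    (∀ c ∈ ASet p K ε, cond K (nf c) = condC K c) →
  ∀ (n : ℕ) (Bd : Fin n → Set (ClP p K₁)) (G : Set (IntermediateField K (AlgebraicClosure K)))
    (θ : ℝ), 0 ≤ θ → (∀ c ∈ ASet p K ε, nf c ∉ G → ∃ r, c ∈ Bd r) →
    (∀ X : ℝ, 0 < X → Summable fun c : ASet p K ε ↦ Real.exp (-(condC K c.1 : ℝ) / X)) →
    (∀ X : ℝ, {c | c ∈ ASet p K ε ∧ (condC K c : ℝ) ≤ X}.Finite) →
    (∃ C X₀ : ℝ, 0 < X₀ ∧ ∀ X : ℝ, X₀ ≤ X →
      ({c | c ∈ ASet p K ε ∧ (condC K c : ℝ) ≤ 2 * X}.ncard : ℝ) ≤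
        C * {c | c ∈ ASet p K ε ∧ (condC K c : ℝ) ≤ X}.ncard) →
    (ASet p K ε).Infinite →
    (∀ r, ∀ η : ℝ, 0 < η → ∀ᶠ X : ℝ in Filter.atTop,
      ∑' c : {c | c ∈ ASet p K ε ∧ c ∈ Bd r}, Real.exp (-(condC K c.1 : ℝ) / X) ≤
        (θ + η) * ∑' c : ASet p K ε, Real.exp (-(condC K c.1 : ℝ) / X)) →
  (∀ X : ℝ, 0 < X → Summable fun N : CycF p K ↦ Real.exp (-(cond K N.1 : ℝ) / X)) ∧
  (∀ η : ℝ, 0 < η → ∀ᶠ X : ℝ in Filter.atTop,
    ∑' N : {N | N ∈ CycF p K ∧ N ∉ G}, Real.exp (-(cond K N.1 : ℝ) / X) ≤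
      (n * θ + η) * ∑' N : CycF p K, Real.exp (-(cond K N.1 : ℝ) / X)) ∧
  (∀ X : ℕ, {N | N ∈ CycN p K ∧ cond K N ≤ X}.Finite) ∧
  (n * θ < 1 → ∃ c : ℝ, 0 < c ∧ ∀ᶠ X : ℕ in Filter.atTop,
    0 < {N | N ∈ CycN p K ∧ cond K N ≤ X}.ncard ∧
    c * {N | N ∈ CycN p K ∧ cond K N ≤ X}.ncard ≤
      {N | N ∈ CycF p K ∧ cond K N ≤ X ∧ N ∈ G}.ncard)

/-- **O_MOM** (the moment theorem for `χ₀ = 1`, class form; compare `PP.MOM`). `K` is a number field which does not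
contain the `p`-th roots of unity, `K₁ = K(ε)`, `T` a place closed set of embeddings with
`|T| ≥ rank(𝓞_Kˣ) + 1`: the constant is `p^(rank + 1)/(p^|T| (p - 1))`. (Proved in parts A-C.) -/
def O_MOM : Prop :=
  ∀ (p : ℕ) [Fact p.Prime] (L : IwasawaLog p ℂ_[p]) (K K₁ : Type) [Field K] [NumberField K]
    [Field K₁] [NumberField K₁] [Algebra K K₁] (ε : K₁), Cyc p K K₁ ε →
    (¬ ∃ ξ : K, IsPrimitiveRoot ξ p) →
  ∀ T : Set (K →+* ℂ_[p]), PlaceClosed T → Units.rank K + 1 ≤ T.ncard →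
  (∀ X : ℝ, 0 < X → Summable fun c : ASet p K ε ↦ Real.exp (-(condC K c.1 : ℝ) / X)) ∧
  (∀ X : ℝ, {c | c ∈ ASet p K ε ∧ (condC K c : ℝ) ≤ X}.Finite) ∧
  (∃ C X₀ : ℝ, 0 < X₀ ∧ ∀ X : ℝ, X₀ ≤ X →
    ({c | c ∈ ASet p K ε ∧ (condC K c : ℝ) ≤ 2 * X}.ncard : ℝ) ≤
      C * {c | c ∈ ASet p K ε ∧ (condC K c : ℝ) ≤ X}.ncard) ∧
  (ASet p K ε).Infinite ∧
  ∀ η : ℝ, 0 < η → ∀ᶠ X : ℝ in Filter.atTop,
    ∑' c : {c | c ∈ ASet p K ε ∧ ∃ x ∈ SelO1 L T c, x ≠ 1},
      Real.exp (-(condC K c.1 : ℝ) / X) ≤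
    ((p : ℝ) ^ (Units.rank K + 1) / (p ^ T.ncard * (p - 1)) + η) *
      ∑' c : ASet p K ε, Real.exp (-(condC K c.1 : ℝ) / X)

/-- **O_DENF** (the density theorem for families, `χ₀ = 1`; compare `PPL.D_DENF`, which has the same form for
`M ≠ K`). Let `p` be a prime, `K` a number field which does not contain the `p`-th roots of unity, and `S i`
`p`-ordinary CM types of `K`, at most `n` different ones. (1) Among the cyclic extensions `N/K` of degree `p` in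
which the primes above `p` split, those which are not good for some of the types (with `χ₀ = 1`, `M = ⊥`) have
asymptotically an Abel mean at most `n/(p - 1)` times that of all. (2) If `n < p - 1`, a positive proportion of
ALL cyclic extensions `N/K` of degree `p` is in this family and good for all the types.

PROOF (from `O_MOM`, `O_ASM`, `O_GOL`, `PP.D_MAP`, `PP.D_TAM`, `PP.D_UNR`). As the proof of `PPL.D_DENF`. Let
`Ω = AlgebraicClosure K`, `K₁ = K(ε) ⊆ Ω`, `ε` a primitive `p`-th root of unity, `j` the inclusion; `Cyc p K K₁ ε`.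
`K` is totally complex (a CM type exists), `T_i = TSet ιinf ιp (S i)` is place closed and has
`rank(𝓞_Kˣ) + 1` elements (`Helper32.LE.rank_cm` and `tset_ncard`, `two_mul_ncard_cm` in
`Pool/Agent/Helper32/LE/FSIG.lean`; `2 |T_i| = [K : ℚ] = 2 (rank + 1)`), so the constant of `O_MOM` is `1/(p - 1)`.
Let `nf` be given by `D_MAP`. For every `r : Fin n` with an `i` such that `c i = r` choose one, `i_r`, and let
`Bd r = {c | ∃ x ∈ SelO1 Lg T_(i_r) c, x ≠ 1}`; `Bd r = ∅` for the other `r` (then the sum is `0`). `G` is the set of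
the `N` which are good for all `i`. CLAIM: if `c ∈ ASet` and `nf c ∉ G` then `c ∈ Bd r` for some `r`. Let `i` be such
that `N = nf c` is not good for `i`, `r = c i`, `S i = S i_r`, and suppose that `c ∉ Bd r`. Let `a₀` of type `ω` with
`clp a₀ = c` and `b = a₀ y^p ∈ 𝓞_{K₁}`, `b ≡ 1 mod p³` (`NiceU`), `b ≠ 0`, of type `ω`, `clp b = c`. If `SelO b x` then
`clp x ∈ SelO1 c`, so `clp x = 1` and `Pw p x`. Let `s^p = j(b)`; `s ∉ j(K₁)` since `c ≠ 1`. `Gen b N` (`D_MAP`) is the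
condition on the automorphisms. `O_GOL` with `S i`: `N` is good for `i` (a contradiction), because for every `v` the
condition in the set of `O_GOL` (`∃ Q` above `v` with `p ∤ ord_Q(b)`) is equivalent to `RamIn N v`: for `v ∤ p` by
`D_TAM`; for `v ∣ p` both are false (`D_UNR`, `N ∈ CycF`; `ord_Q(b) = 0` for `Q ∣ p` since `b ≡ 1 mod p³`). -/
def O_DENF : Prop :=
  ∀ (p : ℕ) [Fact p.Prime] (K : Type) [Field K] [NumberField K] (ιinf : AlgebraicClosure K →+* ℂ)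
    (ιp : AlgebraicClosure K →+* ℂ_[p]) (Lg : IwasawaLog p ℂ_[p])
    (M : IntermediateField K (AlgebraicClosure K)) [NumberField M] [IsGalois K M], M = ⊥ →
    (¬ ∃ ξ : K, IsPrimitiveRoot ξ p) →
  ∀ (ι : Type) [Nonempty ι] (S : ι → Set (K →+* ℂ)) (χ₀ : ι → ((M ≃ₐ[K] M) →* ℂ_[p]ˣ)) (n : ℕ)
    (c : ι → Fin n), (∀ i, IsCMType (S i)) →
    (∀ i, ∀ σ τ : K →+* AlgebraicClosure K, (∀ x, ‖ιp (σ x)‖ = ‖ιp (τ x)‖) →
      (ιinf.comp σ ∈ S i ↔ ιinf.comp τ ∈ S i)) →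
    (∀ i j, c i = c j → S i = S j) →
  (∀ X : ℝ, 0 < X → Summable fun N : CycF p K ↦ Real.exp (-(cond K N.1 : ℝ) / X)) ∧
  (∀ η : ℝ, 0 < η → ∀ᶠ X : ℝ in Filter.atTop,
    ∑' N : {N | N ∈ CycF p K ∧ ∃ i, ¬ Pool.Agent.Helper77.PPL.TwF ιinf ιp Lg (S i) M (χ₀ i) N},
      Real.exp (-(cond K N.1 : ℝ) / X) ≤
    ((n : ℝ) / (p - 1) + η) * ∑' N : CycF p K, Real.exp (-(cond K N.1 : ℝ) / X)) ∧
  (∀ X : ℕ, {N | N ∈ CycN p K ∧ cond K N ≤ X}.Finite) ∧
  (n + 1 < p → ∃ c : ℝ, 0 < c ∧ ∀ᶠ X : ℕ in Filter.atTop,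
    0 < {N | N ∈ CycN p K ∧ cond K N ≤ X}.ncard ∧
    c * {N | N ∈ CycN p K ∧ cond K N ≤ X}.ncard ≤
      {N | N ∈ CycF p K ∧ cond K N ≤ X ∧
        ∀ i, Pool.Agent.Helper77.PPL.TwF ιinf ιp Lg (S i) M (χ₀ i) N}.ncard)

end Pool.Agent.Helper77.PPO
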