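import Pool.Agent.Helper11.LE.Defs
import Pool.Agent.Helper11.PP.DefsD

/-!
# Project PP (MP_fc6b1e_nt, density theorem), the case `χ₀ = 1`: definitions on the D side

`K` is a number field which does not contain the `p`-th roots of unity, `p` odd, `K₁ = K(ε)`.
-/

namespace Pool.Agent.Helper77.PPO

open NumberField Polynomial Module IsDedekindDomain Pool.Agent.Helper51.SigLeo
open Pool.Agent.Helper51.RP Pool.Agent.Helper42.RD Pool.Agent.Helper11.PP

/-- The twisted Selmer group of `a ∈ K₁` for `M = K` (the case `χ₀ = 1`): the local conditions of `a` at all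
the primes of `K₁`, and the logarithmic condition at the places of `T`. -/
structure SelO {p : ℕ} {k : Type} [NormedField k] {K K₁ : Type} [Field K] [Field K₁]
    [NumberField K₁] [Algebra K K₁] (L : IwasawaLog p k) (T : Set (K →+* k)) (a : K₁) (x : Kˣ) :
    Prop where
  loc : ∀ W : HeightOneSpectrum (𝓞 K₁), LocAt p W a (algebraMap K K₁ (x : K))
  sig : LocSig L T x

/-- The elements of `Kˣ` modulo `p`-th powers which satisfy the conditions of the twisted Selmer group
of the class `c` of `K₁`. -/
def SelO1 {p : ℕ} {k : Type} [NormedField k] {K K₁ : Type} [Field K] [Field K₁] [NumberField K₁]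
    [Algebra K K₁] (L : IwasawaLog p k) (T : Set (K →+* k)) (c : ClP p K₁) : Set (ClP p K) :=
  {x | ∃ (y : Kˣ) (a : K₁ˣ), clp p y = x ∧ clp p a = c ∧ SelO L T (a : K₁) y}

end Pool.Agent.Helper77.PPO
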