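import Pool.Agent.Helper3.LE.P1
import Pool.Agent.Helper95.LE.FGOO
import Pool.Agent.Helper9.LE.LA
import Pool.Agent.Helper13.LE.HIL
import Pool.Agent.Helper90.LE.CYC
import Pool.Agent.Helper77.PPO.Defs

/-!
# Project PP (MP_fc6b1e_nt, density theorem), the case `χ₀ = 1`: a trivial twisted Selmer group implies
# that `N` is good
-/

namespace Pool.Agent.Helper77.PPO

open NumberField Polynomial Module IsDedekindDomain TensorProduct Pool.Agent.Helper51.SigLeo
open Pool.Agent.Helper51.RP Pool.Agent.Helper42.RD Pool.Agent.Helper11.LE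
open Pool.Agent.Helper13.RS (bc bc_comp bc_sub bc_id extHom_bc el el_inj el_add el_zero el_nsmul
  el_unitsHom el_sum el_iter iter_add)
open Pool.Agent.Helper9.RP (UU mem_UU mem_UU' fin_UU sum_telescope)

/-- Part I, with a trivial twisted Selmer group (compare `LE.L_P1`). -/
theorem d_p1 (p : ℕ) [Fact p.Prime] (k : Type) [NormedField k] [NormedAlgebra ℚ_[p] k]
    [IsUltrametricDist k] [CompleteSpace k] (hι : Nonempty (AlgebraicClosure ℚ →+* k))
    (L : IwasawaLog p k) (K H K₁ H₁ : Type) [Field K] [NumberField K] [Field H] [NumberField H]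
    [Field K₁] [NumberField K₁] [Field H₁] [NumberField H₁] [Algebra K H] [Algebra K K₁]
    [Algebra K₁ H₁] [Algebra H H₁] (γ : H ≃ₐ[K] H) (γ₁ : H₁ ≃ₐ[K₁] H₁) (ε : K₁) (a : 𝓞 K₁) (s : H₁)
    (hH : HD p K H K₁ H₁ γ γ₁ ε a s) (hcyc : Cyc p K K₁ ε) (hom : OmType p K ε (a : K₁))
    (T : Set (K →+* k)) (hT : PlaceClosed T)
    (htriv : ∀ x : Kˣ, SelO L T (a : K₁) x → Pw p x)
    (ε' : k) (hε' : IsPrimitiveRoot ε' p) (z : k ⊗[ℤ] Additive (𝓞 H)ˣ)
    (hzγ : extEnd (unitsHom γ) z = ε' • z)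
    (hzL : ∀ τ ∈ (above T : Set (H →+* k)), extHom (logUnits L τ) z = 0) : z = 0 := by
  by_contra hz0
  have hp : p.Prime := Fact.out
  have hchar : CharZero k := charZero_of_injective_algebraMap (algebraMap ℚ_[p] k).injective
  have hγp : γ ^ p = 1 := by rw [← hH.γo]; exact pow_orderOf_eq_one γ
  have hγ1 : γ ≠ 1 := by
    intro h
    have := hH.γo
    rw [h, orderOf_one] at this
    exact hp.one_lt.ne this
  -- the maps
  have hq : ∀ u : Additive (𝓞 H)ˣ,
      (unitsHom γ - AddMonoidHom.id (Additive (𝓞 H)ˣ)) u ∈ UU p γ := by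
    intro u
    rw [AddMonoidHom.sub_apply, AddMonoidHom.id_apply]
    exact sum_telescope hγp u
  have hg : ∀ u : UU p γ, unitsHom γ (u : Additive (𝓞 H)ˣ) ∈ UU p γ := by
    intro u
    have h4 := (UU p γ).add_mem u.2 (sum_telescope hγp (u : Additive (𝓞 H)ˣ))
    rwa [add_sub_cancel] at h4
  let i : UU p γ →+ Additive (𝓞 H)ˣ := (UU p γ).subtype
  let q : Additive (𝓞 H)ˣ →+ UU p γ :=
    (unitsHom γ - AddMonoidHom.id (Additive (𝓞 H)ˣ)).codRestrict (UU p γ) hq
  let γU : UU p γ →+ UU p γ := ((unitsHom γ).comp i).codRestrict (UU p γ) hg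
  have hiq : i.comp q = unitsHom γ - AddMonoidHom.id (Additive (𝓞 H)ˣ) := rfl
  have hγq : γU.comp q = q.comp (unitsHom γ) := by
    apply DFunLike.ext
    intro u
    apply Subtype.ext
    change unitsHom γ (unitsHom γ u - u) = unitsHom γ (unitsHom γ u) - unitsHom γ u
    rw [map_sub]
  have hi2 : bc k i (bc k q z) = (ε' - 1) • z := by
    rw [bc_comp, hiq, bc_sub, bc_id]
    have h4 : bc k (unitsHom γ) z = ε' • z := hzγ
    rw [h4, sub_smul, one_smul]
  have hε1 : ε' - 1 ≠ 0 := sub_ne_zero.2 (hε'.ne_one hp.one_lt)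
  have hz' : bc k q z ≠ 0 := by
    intro h4
    rw [h4, map_zero] at hi2
    rcases smul_eq_zero.1 hi2.symm with h5 | h5
    · exact hε1 h5
    · exact hz0 h5
  have hγz' : extEnd γU (bc k q z) = ε' • bc k q z := by
    have h4 : extEnd γU (bc k q z) = bc k γU (bc k q z) := rfl
    rw [h4, bc_comp, hγq, ← bc_comp]
    have h5 : bc k (unitsHom γ) z = ε' • z := hzγ
    rw [h5, map_smul]
  have hγl : ∀ l : ℕ, (extEnd γU : (k ⊗[ℤ] UU p γ) →ₗ[k] (k ⊗[ℤ] UU p γ))^[l] (bc k q z) =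
      ε' ^ l • bc k q z := by
    intro l
    induction l with
    | zero => rw [Function.iterate_zero, id_eq, pow_zero, one_smul]
    | succ l ih => rw [Function.iterate_succ_apply', ih, map_smul, hγz', smul_smul, pow_succ]
  -- iterates
  have hitγ : ∀ (j : ℕ) (u : UU p γ), ((γU^[j] u : UU p γ) : Additive (𝓞 H)ˣ) =
      (unitsHom γ)^[j] (u : Additive (𝓞 H)ˣ) := by
    intro j
    induction j with
    | zero => intro u; rfl
    | succ j ih =>
      intro u
      rw [Function.iterate_succ_apply', Function.iterate_succ_apply', ← ih]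
      rfl
  have hsumU : ∀ u : UU p γ, ∑ j ∈ Finset.range p, γU^[j] u = 0 := by
    intro u
    apply Subtype.ext
    rw [AddSubgroup.val_finsetSum]
    simp only [hitγ]
    exact mem_UU.1 u.2
  -- rationality
  have hcl : PlaceClosed (above T : Set (H →+* k)) := by
    intro σ τ hστ
    apply hT
    intro x
    exact hστ _
  obtain ⟨n, f, hf0, hfc⟩ := Pool.Agent.Helper94.RP.s_rat p k hι L H _ hcl
  have hf0z := hf0 z hzL
  have hfin := fin_UU p γ
  obtain ⟨u, hu1, hu2, hu4⟩ := Pool.Agent.Helper9.LE.l_la p k (UU p γ) γU hsumU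
    (Fin n) (fun j => (f j).comp i) (bc k q z) hz' (by
      intro j l
      rw [hγl, map_smul]
      have h4 := extHom_bc (k := k) i
        (((algebraMap ℚ_[p] k : ℚ_[p] →+* k) : ℚ_[p] →+ k).comp (f j)) (bc k q z)
      rw [hi2, map_smul, hf0z j, smul_zero] at h4
      have h5 : extHom (((algebraMap ℚ_[p] k : ℚ_[p] →+* k) : ℚ_[p] →+ k).comp ((f j).comp i))
          (bc k q z) = 0 := h4.symm
      rw [h5, smul_zero])
  -- the constant
  have hfinE : Finite (H →+* k) := by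
    have : Finite (H →ₐ[ℚ] k) := inferInstance
    exact Finite.of_injective (fun f : H →+* k => f.toRatAlgHom) (fun f g h => by
      ext x; exact DFunLike.congr_fun h x)
  have hp1 : (1 : ℝ) < p := by exact_mod_cast hp.one_lt
  have hp0 : (p : ℝ) ≠ 0 := by positivity
  choose! C hC using hfc
  obtain ⟨c, hc⟩ : ∃ c : ℕ, ∀ τ : H →+* k, ∑ j, ‖C τ j‖ ≤ (p : ℝ) ^ c := by
    have : Fintype (H →+* k) := Fintype.ofFinite _
    obtain ⟨c, hc⟩ := pow_unbounded_of_one_lt (∑ τ : H →+* k, ∑ j, ‖C τ j‖) hp1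
    refine ⟨c, fun τ => le_trans ?_ hc.le⟩
    exact Finset.single_le_sum (f := fun τ : H →+* k => ∑ j, ‖C τ j‖)
      (fun _ _ => Finset.sum_nonneg fun _ _ => norm_nonneg _) (Finset.mem_univ τ)
  obtain ⟨hv1, hv2⟩ := Pool.Agent.Helper3.LE.shift γU u hu1 hu2 c
  -- Hilbert 90
  have hN0 := mem_UU'.1 (u (0 + c)).2
  obtain ⟨y, hy0, hy⟩ := Pool.Agent.Helper79.RP.hilbert90 hp.pos γ hH.γo hN0
  obtain ⟨x, hx⟩ := Pool.Agent.Helper79.RP.fix_mem (M := K) hp γ (fun z => γ.commutes z) hH.degH hγ1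
    (Pool.Agent.Helper79.RP.nrm_fix hγp y)
  have hx0 : x ≠ 0 := by
    rintro rfl
    rw [map_zero] at hx
    exact Finset.prod_ne_zero_iff.2 (fun j _ => (_root_.map_ne_zero (γ ^ j)).2 hy0) hx.symm
  obtain ⟨hloc, hsig⟩ := Pool.Agent.Helper13.LE.l_hil p k hι L K H K₁ H₁ γ γ₁ ε a s hH T
    (fun N => ((u (N + c) : UU p γ) : Additive (𝓞 H)ˣ).toMul)
    (fun N => mem_UU'.1 (u (N + c)).2)
    (by
      intro N
      obtain ⟨b, hb⟩ := hv1 N
      refine ⟨(b : Additive (𝓞 H)ˣ).toMul, mem_UU'.1 b.2, ?_⟩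
      have h5 := congrArg (fun v : UU p γ => el (v : Additive (𝓞 H)ˣ)) hb
      beta_reduce at h5
      rw [AddSubgroup.coe_add, AddSubgroup.coe_add, el_add, el_add] at h5
      exact h5)
    (by
      intro N l τ hτ
      have h4 := hC τ hτ ((unitsHom γ)^[l] ((u (N + c) : UU p γ) : Additive (𝓞 H)ˣ))
      change ‖logUnits L τ ((unitsHom γ)^[l] ((u (N + c) : UU p γ) : Additive (𝓞 H)ˣ))‖ ≤ _
      rw [h4]
      have h6 : ∀ j, ‖f j ((unitsHom γ)^[l] ((u (N + c) : UU p γ) : Additive (𝓞 H)ˣ))‖ ≤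
          (1 / p : ℝ) ^ (N + c) := by
        intro j
        rw [← hitγ]
        exact hu4 (N + c) j l
      calc ‖∑ j, f j ((unitsHom γ)^[l] ((u (N + c) : UU p γ) : Additive (𝓞 H)ˣ)) • C τ j‖
          ≤ ∑ j, ‖f j ((unitsHom γ)^[l] ((u (N + c) : UU p γ) : Additive (𝓞 H)ˣ)) • C τ j‖ :=
            norm_sum_le _ _
        _ ≤ ∑ j, (1 / p : ℝ) ^ (N + c) * ‖C τ j‖ := by
            apply Finset.sum_le_sum
            intro j _
            rw [norm_smul]
            exact mul_le_mul_of_nonneg_right (h6 j) (norm_nonneg _)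
        _ = (1 / p : ℝ) ^ (N + c) * ∑ j, ‖C τ j‖ := by rw [Finset.mul_sum]
        _ ≤ (1 / p : ℝ) ^ (N + c) * (p : ℝ) ^ c := by
            exact mul_le_mul_of_nonneg_left (hc τ) (by positivity)
        _ = (1 / p : ℝ) ^ N := by
            rw [pow_add, mul_assoc, ← mul_pow, one_div_mul_cancel hp0, one_pow, mul_one])
    (Units.mk0 y hy0) (Units.mk0 x hx0) hy hx
  obtain ⟨w, hw'⟩ := htriv (Units.mk0 x hx0) ⟨hloc, hsig⟩
  have hw : algebraMap K K₁ ((Units.mk0 x hx0 : Kˣ) : K) = ((-1) ^ (p - 1) * (a : K₁)) ^ 0 *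
      algebraMap K K₁ (w : K) ^ p := by
    rw [hw', Units.val_pow_eq_pow_val, map_pow, pow_zero, one_mul]
  obtain ⟨t, e, ht1, he1, he2, hte⟩ := Pool.Agent.Helper3.LE.fin_step hp hH hcyc hom
    (((u (0 + c) : UU p γ) : Additive (𝓞 H)ˣ).toMul) hy0 hy (x := Units.mk0 x hx0) hx hw
  apply hv2
  have ht : Additive.ofMul t ∈ UU p γ := mem_UU'.2 ht1
  have he : Additive.ofMul e ∈ UU p γ := mem_UU'.2 he1
  refine ⟨⟨Additive.ofMul t, ht⟩, ⟨Additive.ofMul e, he⟩, p, hp.pos, ?_, ?_⟩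
  · apply Subtype.ext
    rw [AddSubgroup.coe_nsmul, AddSubgroup.coe_zero]
    change Additive.ofMul (e ^ p) = 0
    rw [he2]
    rfl
  · apply Subtype.ext
    apply el_inj
    rw [AddSubgroup.coe_add, AddSubgroup.coe_add, el_add, el_add]
    exact hte


open Pool.Agent.Helper79.RD in
/-- A trivial twisted Selmer group gives a good extension (compare `LE.F_GOO`). -/
theorem d_goo1 (p : ℕ) [hpf : Fact p.Prime] (k : Type) [NormedField k] [NormedAlgebra ℚ_[p] k]
    [IsUltrametricDist k] [CompleteSpace k] (hι : Nonempty (AlgebraicClosure ℚ →+* k))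
    (L : IwasawaLog p k) (K K₁ : Type) [Field K] [NumberField K] [Field K₁] [NumberField K₁]
    [Algebra K K₁] (ε : K₁) (hcyc : Cyc p K K₁ ε) (T : Set (K →+* k)) (hcl : PlaceClosed T)
    (a : 𝓞 K₁) (hne : a ≠ 0) (hadm : (p : 𝓞 K₁) ^ 3 ∣ a - 1) (hom : OmType p K ε (a : K₁))
    (htriv : ∀ x : Kˣ, SelO L T (a : K₁) x → Pw p x)
    (j : K₁ →+* AlgebraicClosure K)
    (hj : ∀ x : K, j (algebraMap K K₁ x) = algebraMap K (AlgebraicClosure K) x)
    (s : AlgebraicClosure K) (hs : s ^ p = j a) (hns : ¬ ∃ y : K₁, j y = s)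
    (N : IntermediateField K (AlgebraicClosure K)) (hNp : finrank K N = p) (hNg : IsGalois K N)
    (hgen : ∀ g : AlgebraicClosure K ≃ₐ[K] AlgebraicClosure K, (∀ y ∈ N, g y = y) →
      (∀ x : K₁, g (j x) = j x) → g s = s) :
    NGood L T N := by
  have hp := hpf.out
  have hε := hcyc.prim
  have hN0 : 0 < finrank K N := by rw [hNp]; exact hp.pos
  have hfN : FiniteDimensional K N := FiniteDimensional.of_finrank_pos hN0
  have hnN : Normal K N := inferInstance
  have hnΩ : Normal K (AlgebraicClosure K) := inferInstance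
  have hgΩ : IsGalois K (AlgebraicClosure K) := inferInstance
  have hfKK₁ : FiniteDimensional K K₁ := FiniteDimensional.right ℚ K K₁
  let jK : K₁ →ₐ[K] AlgebraicClosure K := { j with commutes' := hj }
  set E : IntermediateField K (AlgebraicClosure K) := jK.fieldRange with hE
  have hjE : ∀ x : K₁, j x ∈ E := fun x => ⟨x, rfl⟩
  have hEj : ∀ y ∈ E, ∃ x : K₁, j x = y := fun y hy => hy
  have hrankE : finrank K E = finrank K K₁ :=
    (LinearEquiv.finrank_eq (AlgEquiv.ofInjectiveField jK).toLinearEquiv).symm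
  have hfE : FiniteDimensional K E := FiniteDimensional.of_finrank_pos (by
    rw [hrankE]; exact finrank_pos)
  set H₁ : IntermediateField K (AlgebraicClosure K) := E ⊔ N with hH₁
  have hjH : ∀ x : K₁, j x ∈ H₁ := fun x => (le_sup_left : E ≤ H₁) (hjE x)
  have hNH : N ≤ H₁ := le_sup_right
  have hsH : s ∈ H₁ := mem_of_fixed fun g hg =>
    hgen g (fun y hy => hg y (hNH hy)) (fun x => hg _ (hjH x))
  have hfH₁ : FiniteDimensional K H₁ := inferInstance
  have hnfH₁ : NumberField H₁ := NumberField.of_module_finite K H₁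
  have hnfN : NumberField N := NumberField.of_module_finite K N
  -- the automorphism
  have haK₁ : (a : K₁) ≠ 0 := RingOfIntegers.coe_ne_zero_iff.2 hne
  have hr := no_root hp hε j haK₁ hs hns
  obtain ⟨gK, hgj, hgs⟩ : ∃ gK : AlgebraicClosure K ≃ₐ[K] AlgebraicClosure K,
      (∀ x, gK (j x) = j x) ∧ gK s = j ε * s := by
    let _ : Algebra K₁ (AlgebraicClosure K) := j.toAlgebra
    have ht2 : IsScalarTower K K₁ (AlgebraicClosure K) :=
      IsScalarTower.of_algebraMap_eq fun c => (hj c).symm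
    have hn2 : Normal K₁ (AlgebraicClosure K) :=
      Normal.tower_top_of_normal K K₁ (AlgebraicClosure K)
    obtain ⟨-, g, hg⟩ := exists_kummer hp hε (s := s) (a := (a : K₁)) hs hr
    exact ⟨g.restrictScalars K, fun x => g.commutes x, hg⟩
  have hgE : ∀ x ∈ E, gK x = x := by
    intro x hx
    obtain ⟨y, rfl⟩ := hEj x hx
    exact hgj y
  have hgE' : ∀ x ∈ E, gK.symm x = x := by
    intro x hx
    rw [AlgEquiv.symm_apply_eq]
    exact (hgE x hx).symm
  have hst1 : ∀ x ∈ H₁, gK x ∈ H₁ := map_sup_mem gK fun x hx => by rw [hgE x hx]; exact hx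
  have hst2 : ∀ x ∈ H₁, gK.symm x ∈ H₁ := map_sup_mem gK.symm fun x hx => by
    rw [hgE' x hx]; exact hx
  have hst3 : ∀ x ∈ N, gK x ∈ N := fun x hx => map_mem_normal gK hx
  have hst4 : ∀ x ∈ N, gK.symm x ∈ N := fun x hx => map_mem_normal gK.symm hx
  -- algebras
  let _ : Algebra K₁ H₁ := (j.codRestrict H₁ hjH).toAlgebra
  have hcK₁ : ∀ x : K₁, ((algebraMap K₁ H₁ x : H₁) : AlgebraicClosure K) = j x := fun x => rfl
  have ht4 : IsScalarTower K K₁ H₁ := IsScalarTower.of_algebraMap_eq fun x =>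
    Subtype.ext (hj x).symm
  let _ : Algebra N H₁ := (IntermediateField.inclusion hNH).toRingHom.toAlgebra
  have hfK₁H₁ : FiniteDimensional K₁ H₁ := FiniteDimensional.right K K₁ H₁
  -- degrees
  set s₁ : H₁ := ⟨s, hsH⟩ with hs₁
  have hs₁p : s₁ ^ p = algebraMap K₁ H₁ (a : K₁) := Subtype.ext hs
  have hdegH₁ : finrank K₁ H₁ = p := by
    have e1 := Module.finrank_mul_finrank K K₁ H₁
    have e2 : finrank K H₁ ≤ finrank K E * finrank K N := IntermediateField.finrank_sup_le E N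
    rw [hrankE, hNp, ← e1] at e2
    have e3 : finrank K₁ H₁ ≤ p := Nat.le_of_mul_le_mul_left e2 finrank_pos
    have e4 : minpoly K₁ s₁ = X ^ p - C (a : K₁) :=
      (minpoly.eq_of_irreducible_of_monic (X_pow_sub_C_irreducible_of_prime hp hr)
        (by rw [map_sub, map_pow, aeval_X, aeval_C, hs₁p, sub_self])
        (monic_X_pow_sub_C _ hp.ne_zero)).symm
    have e5 : finrank K₁ (IntermediateField.adjoin K₁ {s₁}) = p := by
      rw [IntermediateField.adjoin.finrank (Algebra.IsIntegral.isIntegral s₁), e4,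
        natDegree_X_pow_sub_C]
    have e6 : p ∣ finrank K₁ H₁ := by
      rw [← Module.finrank_mul_finrank K₁ (IntermediateField.adjoin K₁ {s₁}) H₁, e5]
      exact dvd_mul_right _ _
    exact le_antisymm e3 (Nat.le_of_dvd finrank_pos e6)
  set γ := res gK hst3 hst4 with hγ
  set γ₁K := res gK hst1 hst2 with hγ₁K
  let γ₁ : H₁ ≃ₐ[K₁] H₁ := AlgEquiv.ofRingEquiv (f := (γ₁K : H₁ ≃+* H₁)) fun x =>
    Subtype.ext (hgj x)
  have hγp : γ ^ p = 1 := by
    ext y
    rw [hγ, res_pow]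
    exact pow_fix (by rw [hNp]) hN0 hNg gK y y.2
  have hγ1 : γ ≠ 1 := by
    intro h
    have e1 : ∀ y ∈ N, gK y = y := by
      intro y hy
      have e2 := AlgEquiv.congr_fun h ⟨y, hy⟩
      exact congrArg Subtype.val e2
    have e3 := hgen gK e1 hgj
    rw [hgs] at e3
    have hs0 : s ≠ 0 := by
      intro h0
      rw [h0, zero_pow hp.ne_zero] at hs
      exact haK₁ (j.injective (by rw [← hs, map_zero]))
    have e4 : j ε = 1 := by
      have : (j ε - 1) * s = 0 := by rw [sub_mul, e3, one_mul, sub_self]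
      rcases mul_eq_zero.1 this with h' | h'
      · exact sub_eq_zero.1 h'
      · exact absurd h' hs0
    have e5 : ε = 1 := j.injective (by rw [e4, map_one])
    exact hε.ne_one hp.one_lt e5
  have hγo : orderOf γ = p := orderOf_eq_prime hγp hγ1
  have hHD : HD p K N K₁ H₁ γ γ₁ ε a s₁ :=
    { degH := hNp
      degH₁ := hdegH₁
      compat := fun x => Subtype.ext (hj x)
      cop := (Pool.Agent.Helper90.LE.l_cyc p K K₁ ε hcyc).2.1
      gal := hcyc.gal
      prim := hε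
      ne := hne
      adm := hadm
      pow := hs₁p
      γs := Subtype.ext hgs
      ext := fun y => rfl
      γo := hγo }
  intro γ' ε' hε' z hz hz0
  by_contra hzne
  have hγ'1 : γ' ≠ 1 := by
    rintro rfl
    rw [unitsHom_one, extEnd_id] at hz
    have e1 : (1 - ε') • z = 0 := by rw [sub_smul, one_smul, ← hz, sub_self]
    rcases smul_eq_zero.1 e1 with h' | h'
    · exact hε'.ne_one hp.one_lt (sub_eq_zero.1 h').symm
    · exact hzne h'
  have hcard : Nat.card (N ≃ₐ[K] N) = p := by rw [IsGalois.card_aut_eq_finrank, hNp]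
  obtain ⟨c, hc⟩ : ∃ c : ℕ, γ' ^ c = γ := by
    have e1 : γ ∈ Submonoid.powers γ' := mem_powers_of_prime_card hcard hγ'1
    exact e1
  have hpc : c.Coprime p := by
    rw [Nat.coprime_comm, hp.coprime_iff_not_dvd]
    rintro ⟨d, rfl⟩
    apply hγ1
    rw [← hc, pow_mul, ← hcard, pow_card_eq_one', one_pow]
  exact hzne (d_p1 p k hι L K N K₁ H₁ γ γ₁ ε a s₁ hHD hcyc hom T hcl htriv (ε' ^ c)
    (hε'.pow_of_coprime c hpc) z
    (by rw [← hc]; exact Pool.Agent.Helper95.LE.eig_pow γ' ε' z hz c) hz0)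


end Pool.Agent.Helper77.PPO
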