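import Pool.Agent.Helper77.PPO.Defs
import Pool.Agent.Helper77.RL.Goals2

/-!
# Project PP (MP_fc6b1e_nt, density theorem), the case `χ₀ = 1`: all admissible extensions `L`

`K` does not contain the `p`-th roots of unity (so `p` is odd), `K₁ = K(ε)`, `L/K` is a Galois extension of
degree `p^n`, `L₁ = K₁ L`. A trivial twisted Selmer group of `a ∈ K₁` over `K` implies a trivial one over `L`.
-/

namespace Pool.Agent.Helper77.PPO

open NumberField Polynomial Module IsDedekindDomain TensorProduct Pool.Agent.Helper51.SigLeo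
open Pool.Agent.Helper51.RP Pool.Agent.Helper42.RD Pool.Agent.Helper11.LE Pool.Agent.Helper11.PP
open Pool.Agent.Helper77.RL (Sqr AtT Adm TwistAll)

/-- The condition at `σ ∈ T`: (A) the decomposition group in `Gal(L/K)` is trivial, for all the `τ` above `σ`;
or (B) for all the `τ` there is `g` in the decomposition group acting on the `p`-th roots of unity as `i`,
with `i` not congruent to `1` modulo `p`. -/
def CondO (p : ℕ) (K L Ω : Type) {k : Type} [NormedField k] [Field K] [Field L] [Field Ω]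
    [Algebra K L] [Algebra K Ω] [Algebra L Ω] (σ : K →+* k) : Prop :=
  (∀ τ : Ω →+* k, τ.comp (algebraMap K Ω) = σ → ∀ g : L ≃ₐ[K] L,
    (∀ x : L, ‖τ (algebraMap L Ω (g x))‖ = ‖τ (algebraMap L Ω x)‖) → g = 1) ∨
  ∀ τ : Ω →+* k, τ.comp (algebraMap K Ω) = σ → ∃ (g : Ω ≃ₐ[K] Ω) (i : ℕ),
    (∀ x, ‖τ (g x)‖ = ‖τ x‖) ∧ (∀ ξ : Ω, ξ ^ p = 1 → g ξ = ξ ^ i) ∧ ‖(1 : k) - i‖ = 1

/-- The conditions at the primes outside `T` on the extension `L/K`: the primes of `K` above which the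
valuation of `a` is not a multiple of `p` split completely in `L`; the other primes, not induced by `T`, are
unramified in `L`. -/
structure CondLO (p : ℕ) (K L : Type) {K₁ k : Type} [NormedField k] [Field K] [NumberField K]
    [Field L] [NumberField L] [Field K₁] [NumberField K₁] [Algebra K L] [Algebra K K₁]
    (T : Set (K →+* k)) (a : K₁) : Prop where
  split : ∀ v : HeightOneSpectrum (𝓞 K),
    (∃ Q : HeightOneSpectrum (𝓞 K₁), Above Q v ∧ ¬ (p : ℤ) ∣ ordv Q a) →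
    ∀ V : HeightOneSpectrum (𝓞 L), Above V v → FreeP K V
  unr : ∀ v : HeightOneSpectrum (𝓞 K),
    (∀ Q : HeightOneSpectrum (𝓞 K₁), Above Q v → (p : ℤ) ∣ ordv Q a) → ¬ AtT T v →
    ∀ V : HeightOneSpectrum (𝓞 L), Above V v → ∀ x : K, ordv V (algebraMap K L x) = ordv v x

/-- **O_SUB.** The twisted Selmer group of `a ∈ K₁` over `L` is a subgroup of `Lˣ` which contains the `p`-th
powers and is stable under `Gal(L/K)`.

PROOF (from `RL.L_SQR`; compare `Pool/Agent/Helper95/RL/SUB.lean` and the proof of `RP.S_SUB`). *Subgroup.*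
`LocAt` at `W`: if `p ∣ ord_W(a)` the condition `p ∣ ord_W(x)` is additive. If `p ∤ ord_W(a)`, with
`a* = (-1)^(p-1) a ≠ 0`: if `x a*^i y^p` and `x' a*^i' y'^p` are `≡ 1 mod W` so is their product, and the
inverse of the first: `x⁻¹ a*^((p-1) i) (a*^(-i) y⁻¹)^p`; `x^p` is fine with `i = 0`. `LocSig` is a subgroup
which contains the `p`-th powers (see `RP.S_SUB`; `k` is ultrametric only for other purposes, `L` is a
homomorphism and `‖L(t t')‖ ≤ max`). *Stability.* Let `g ∈ Gal(L/K)`; by `L_SQR` (for the square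
`K ⊆ K₁, L ⊆ L₁`) there is `f ∈ Gal(L₁/K)` which extends `g` and is trivial on `K₁`. For a prime `W` of `L₁`
let `W'` be the prime with `W'.valuation y = W.valuation (f y)`; since `f a = a`, `LocAt p W a (g x)` is
equivalent to `LocAt p W' a x`. `above T` is stable under `τ ↦ τ ∘ g`, and
`τ(g(x) g(y)^p) = (τ ∘ g)(x y^p)`. -/
def O_SUB : Prop :=
  ∀ (p : ℕ) [Fact p.Prime] (k : Type) [NormedField k] [NormedAlgebra ℚ_[p] k]
    [IsUltrametricDist k] (Lg : IwasawaLog p k) (n : ℕ) (K K₁ L L₁ : Type) [Field K]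
    [NumberField K] [Field K₁] [NumberField K₁] [Field L] [NumberField L] [Field L₁]
    [NumberField L₁] [Algebra K K₁] [Algebra K L] [Algebra K L₁] [Algebra K₁ L₁] [Algebra L L₁]
    [IsScalarTower K K₁ L₁] [IsScalarTower K L L₁], Sqr p n K K₁ L L₁ →
  ∀ (T : Set (K →+* k)) (a : K₁), a ≠ 0 →
  ∃ V : Subgroup Lˣ,
    (∀ x, x ∈ V ↔ SelO Lg (above T : Set (L →+* k)) (algebraMap K₁ L₁ a) x) ∧
    (∀ x, Pw p x → x ∈ V) ∧
    ∀ (g : L ≃ₐ[K] L), ∀ x ∈ V, Units.map ((g : L →+* L) : L →* L) x ∈ V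

/-- **O_TRV** (the lifting theorem for `χ₀ = 1`). If the twisted Selmer group of `a` over `K` consists of `p`-th
powers so does the one over `L`.

PROOF (from `O_SUB`, `RL.L_FIX`, `RL.L_DES`, `RL.L_LSD`, `RL.L_SQR`, `RL.L_EF1`, `LE.L_CYC`, `RD.E_TRF`; compare
`Pool/Agent/Helper49/RL/LIFT.lean` and `Pool/Agent/Helper4/RL/TYP.lean`). (0) `L` does not contain a primitive
`p`-th root of unity `ξ`: `K(ξ)/K` is Galois and its group embeds in `(ZMod p)ˣ`, so `[K(ξ) : K]` divides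
`p - 1` and `[L : K] = p^n`, and `ξ ∈ K`. So `ξ = 1` if `ξ ∈ L`, `ξ^(p^j) = 1`. (1) Suppose that there is an
`x ∈ V` (`O_SUB`) which is not a `p`-th power. `L_FIX` (`M := K`, `M' := L`) gives such an `x` with `g(x)/x` a
`p`-th power for all `g ∈ Gal(L/K)`. Apply `L_DES` with `M := K`, `M' := L`, `m = 1`, `δ = 1`, `δ₁ = 1`,
`P = X - 1`, an irreducible polynomial: `LData p 1 n 1 1` holds, `TorOK (X - 1) 1` holds with `i = 0` by (0),
and `pol (X - 1) 1 x = x · x^(p-1) = x^p` is always a `p`-th power. It gives `x₀ ∈ Kˣ` such that `x/x₀` is a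
`p`-th power in `Lˣ`; so `x₀ ∈ V`, and `x₀` is not a `p`-th power in `Kˣ`. We show `SelO` for `x₀` over `K`, a
contradiction. (2) *sig*: `L_LSD` with the same data. Let `σ ∈ T`. If (A) of `CondO`, let `τ' : L → k` extend `σ`
and `g` preserve the norms of `τ'`; extend `τ'` to `τ : Ω → k`; so `g = 1`: `SplitAt K τ'`. If (B), let
`τ : Ω → k` extend `σ`, `g`, `i` as in `CondO`, `s = g^(p^n)`: it preserves the norms of `τ`, it is trivial on
`L` (the restriction of `g` to `L`, which is normal over `K`, has order dividing `p^n`), and acts on the `p`-th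
roots of unity as `i' = i^(p^n) ≡ i mod p`; `‖1 - i‖ = 1` means `p ∤ i - 1`, so `X - 1` and `X^1 - i'` are
coprime in `F_p[X]`: `NoTor (X - 1) 1 τ` with `r = 1`. (3) *loc*: let `W` be a prime of `K₁`, `v` the prime of `K`
below, `W'` a prime of `L₁` above `W`, `V = W' ∩ L`, above `v`; on `K₁` the valuation of `W'` is a positive
power of that of `W`, on `K` the valuation of `W` is a positive power of that of `v`. *Case `p ∤ ord_W(a)`.*
`V` is free over `K` by `split`, so by `L_EF1` (with `M := K₁`, `M' := L₁`) `ord_{W'} = ord_W` on `K₁` and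
every `y ∈ 𝓞_{L₁}` is congruent modulo `W'` to an element of `𝓞_{K₁}`. So `p ∤ ord_{W'}(a)`, `Tame` gives
`LocPow p W' z` with `z = x₀ a*^i ∈ K₁ˣ`, and `LocPow p W z` follows as in the proof of `RL.L_LIFT` (*tame*).
*Case `p ∣ ord_W(a)`.* (i) `p ∣ ord_Q(a)` for all the `Q` above `v`: let `h ∈ Gal(K₁/K)` with
`Q.valuation (h y) = W.valuation y`; `h a = a^m c^p` and `h⁻¹` similarly (`OmType`), so
`ord_Q(a) = ord_W(h⁻¹ a) ≡ m' ord_W(a)`. (ii) `p ∣ ord_v(x₀)`: if `AtT T v` this follows from `LocSig` for `x₀`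
(see the proof of `RL.L_LIFT`, *dvd*). Otherwise `ord_V(x) = ord_v(x)` for `x ∈ K` by `unr`;
`ord_{W'}(a)` is a multiple of `ord_W(a)`, so `p ∣ ord_{W'}(a)`, `p ∣ ord_{W'}(x₀)`, and `p ∣ ord_V(x₀)` by
`E_TRF` for `L₁/L`, a Galois extension of degree `[K₁ : K]` prime to `p` (`L_SQR`, `L_CYC`). (iii) `ord_W(x₀)` is a
multiple of `ord_v(x₀)`. -/
def O_TRV : Prop :=
  ∀ (p : ℕ) [Fact p.Prime] (k : Type) [NormedField k] [NormedAlgebra ℚ_[p] k]
    [IsUltrametricDist k], Nonempty (AlgebraicClosure ℚ →+* k) →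
  ∀ (Lg : IwasawaLog p k) (n : ℕ) (K K₁ L L₁ Ω : Type) [Field K] [NumberField K] [Field K₁]
    [NumberField K₁] [Field L] [NumberField L] [Field L₁] [NumberField L₁] [Field Ω]
    [Algebra K K₁] [Algebra K L] [Algebra K L₁] [Algebra K₁ L₁] [Algebra L L₁]
    [IsScalarTower K K₁ L₁] [IsScalarTower K L L₁] [Algebra K Ω] [Algebra L Ω]
    [IsScalarTower K L Ω] [IsAlgClosure L Ω] (ε : K₁), Cyc p K K₁ ε →
    (¬ ∃ ξ : K, IsPrimitiveRoot ξ p) → Sqr p n K K₁ L L₁ →
  ∀ T : Set (K →+* k), (∀ σ ∈ T, CondO p K L Ω σ) →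
  ∀ a : K₁, a ≠ 0 → OmType p K ε a → CondLO p K L T a →
    (∀ x : Kˣ, SelO Lg T a x → Pw p x) →
  ∀ x : Lˣ, SelO Lg (above T : Set (L →+* k)) (algebraMap K₁ L₁ a) x → Pw p x

/-- **O_GOL** (trivial twisted Selmer group implies good for all the admissible `L`, `χ₀ = 1`). Compare
`RL.L_GOO` and `PPL.D_GOL`; here `M = K`, given as the intermediate field `M = ⊥` in order to use the
definitions `Adm` and `TwistAll`.

PROOF (from `O_TRV`, `PPO.d_p1` (a theorem, `Pool/Agent/Helper77/PPO/GOO.lean`), `RL.L_SQR`, `LE.L_CYC`; it is the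
proof of `RL.L_GOO`, `Pool/Agent/Helper13/RL/GOO.lean`, with `M = K`, `M₁ = K₁`). Let `Ω = AlgebraicClosure K`,
`k = ℂ_[p]`, `T = TSet ιinf ιp S`, `[L : K] = p^n` (`Adm.deg`). Let `K₁' = j(K₁)`, `L₁ = K₁' L`, `H = L N`,
`H₁ = L₁ N`, subfields of `Ω`. `L₁/K` is Galois, `Sqr p n K K₁ L L₁` holds (`L_CYC`: `[K₁ : K]` is prime to
`p`). `N` is not contained in `L₁`: `Gal(L₁/K) = Gal(K₁'/K) × Gal(L/K)` (`L_SQR`); if `N ⊆ L₁`, `Gal(N/K)`, of
order `p`, is a quotient of it in which the image of the first factor, of order prime to `p`, is trivial, so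
`N ⊆ L`, contrary to the hypothesis. So `[H₁ : L₁] = p`, and `[H : L] = p` as `N ⊄ L`. `s ∈ H₁` (`Ω/H₁` is Galois,
and the hypothesis on the automorphisms). `s ∉ L₁`: the field `K₁' N` contains `s`, has degree `p` over `K₁'`,
and `s ∉ K₁'`, so `K₁' N = K₁'(s)`; `s ∈ L₁` would give `N ⊆ L₁`. So `H₁ = L₁(s)`; let `γ₁ ∈ Gal(H₁/L₁)` with
`γ₁ s = j(ε) s`, `γ` its restriction to `H`; it is trivial on `L` and of order `p` (`γ₁ ≠ 1` and `H₁` is
generated by `L₁` and `N`). So `HD p L H L₁ H₁ γ γ₁ ε a s` holds with the images of `ε`, `a` in `L₁`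
(`adm`: the image of a divisibility), and `Cyc p L L₁ ε`: an automorphism of `L₁/L` fixing `ε` restricts to an
automorphism of `K₁/K` fixing `ε`, so it is trivial on `K₁` and `L`, hence trivial (`Sqr.gen`).
`OmType p L ε a` for `L₁/L`: restrict the automorphisms to `K₁`. `above T` (embeddings of `L`) is place closed.
The twisted Selmer group of `a` over `L` is trivial by `O_TRV`: `CondO` for `σ ∈ T` is `Adm.sig`, with
`χ₀(restriction of g) = 1`, because `M = ⊥` has only the trivial automorphism over `K`; `CondLO.split` is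
`Adm.split` and `CondLO.unr` is `Adm.unr`: for every `v` there is a prime `w` of `M = ⊥` above `v`, and
`FreeP K w`.
*Conclusion.* Let `H'`, `χ`, `φ`, `ψ` be as in `TwistAll`, `x ∈ k ⊗ 𝓞_{H'}ˣ` and `z = eChi x`, killed by all
`ℓ ∈ logSigma`. `H' ⊆ H`: an automorphism `g` of `Ω` trivial on `H` is trivial on `N`, `L` and `M`, so
`χ(g|_{H'}) = 1` and `g` is trivial on `H'`. Let `z~` be the image of `z` in `k ⊗ 𝓞_Hˣ` (an injective map). For
`g ∈ Gal(H'/K)`, `g z = χ(g) z`. So `γ z~ = φ(γ|_N) z~` (`χ₀ = 1` on `M = ⊥`, `ψ(γ|_L) = 1`), and `φ(γ|_N)` is a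
primitive `p`-th root of unity as `φ` is injective. If `τ : H → k` is above `T` then `z~` is killed by
`logUnits τ` (see `RL.L_GOO`). By `d_p1` for the base field `L` and the set `above T` of embeddings of `L`,
`z~ = 0`, so `z = 0`. -/
def O_GOL : Prop :=
  ∀ (p : ℕ) [Fact p.Prime] (K : Type) [Field K] [NumberField K]
    (ιinf : AlgebraicClosure K →+* ℂ) (ιp : AlgebraicClosure K →+* ℂ_[p]) (Lg : IwasawaLog p ℂ_[p])
    (S : Set (K →+* ℂ)), PlaceClosed (TSet ιinf ιp S) → (¬ ∃ ξ : K, IsPrimitiveRoot ξ p) →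
  ∀ (M : IntermediateField K (AlgebraicClosure K)) [NumberField M] [IsGalois K M]
    (χ₀ : (M ≃ₐ[K] M) →* ℂ_[p]ˣ), M = ⊥ →
  ∀ (K₁ : Type) [Field K₁] [NumberField K₁] [Algebra K K₁] (ε : K₁), Cyc p K K₁ ε →
  ∀ a : 𝓞 K₁, a ≠ 0 → (p : 𝓞 K₁) ^ 3 ∣ a - 1 → OmType p K ε (a : K₁) →
    (∀ x : Kˣ, SelO Lg (TSet ιinf ιp S) (a : K₁) x → Pw p x) →
  ∀ (j : K₁ →+* AlgebraicClosure K),
    (∀ x : K, j (algebraMap K K₁ x) = algebraMap K (AlgebraicClosure K) x) →
  ∀ s : AlgebraicClosure K, s ^ p = j (a : K₁) → (¬ ∃ y : K₁, j y = s) →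
  ∀ (N : IntermediateField K (AlgebraicClosure K)) [IsGalois K N], finrank K N = p →
    (∀ g : AlgebraicClosure K ≃ₐ[K] AlgebraicClosure K, (∀ y ∈ N, g y = y) →
      (∀ x : K₁, g (j x) = j x) → g s = s) →
  ∀ (L : IntermediateField K (AlgebraicClosure K)) [NumberField L] [IsGalois K L], ¬ N ≤ L →
    Adm p (TSet ιinf ιp S) {v | (∃ w : HeightOneSpectrum (𝓞 M), Above w v ∧ FreeP K w) ∧
      ∃ Q : HeightOneSpectrum (𝓞 K₁), Above Q v ∧ ¬ (p : ℤ) ∣ ordv Q (a : K₁)} M χ₀ L →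
  TwistAll ιinf ιp Lg S M χ₀ N L

end Pool.Agent.Helper77.PPO
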