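import Pool.Agent.Helper77.PPS.GoalsH
import Pool.Agent.Helper77.PPO.Defs
import Pool.Agent.Helper42.PP1.Defs

/-!
# Project PP (MP_fc6b1e_nt), the case `χ₀ = 1`: the sieve hypotheses and the lower bound for the family
-/

namespace Pool.Agent.Helper77.PPO

open NumberField Polynomial Module IsDedekindDomain
open Pool.Agent.Helper77.PPS
open Pool.Agent.Helper42.PP (Spl Base)
open Pool.Agent.Helper42.PP1 (TauN sysN)
open Pool.Agent.Helper17.PP (Sys)

open Classical in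
/-- The fields `che`, `g_one`, `g_mono`, `ht`, `mers` (there is no condition on the primes which are not
split). -/
structure SV0 {p : ℕ} {B B₀ k U Λ W : Type} [Field k] [AddCommGroup U] [Module k U]
    [AddCommGroup Λ] [Module k Λ] [AddCommGroup W] (S : Sys p B B₀ k U Λ W) (g : ℝ → ℝ) (A : ℝ)
    (K : ℕ) : Prop where
  one_le : 1 ≤ K
  che : ∀ j : ℕ, 1 ≤ j → ∑ q ∈ S.blk j, (1 : ℝ) / S.N q ≤ K / j
  g_one : ∀ Y, 1 ≤ g Y
  g_mono : ∀ Y X, Y ≤ X → g Y ≤ K * g X
  g_dbl : ∀ Y, g (2 * Y) ≤ K * g Y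
  ht : ∀ (f : B → ℝ), (∀ q, 0 ≤ f q ∧ f q ≤ A) → ∀ (Y : ℝ), 0 < Y →
    ∀ P : Finset B, ∑ b ∈ P.powerset, (∏ q ∈ b, f q) * Real.exp (-(S.nm b / Y)) ≤
      K * (Y * min 1 Y * g Y) * Real.exp (∑ q ∈ S.upto Y, (f q - 1) / S.N q)
  mers : ∀ m n : ℕ, 1 ≤ m → m ≤ n → (1 / K : ℝ) * Real.log (n / m) - K ≤
    ∑ q ∈ S.below n with S.spl q ∧ m ≤ S.bl q, (1 : ℝ) / S.N q

section

variable (p : ℕ) [hp : Fact p.Prime] (k : Type) [NormedField k] (K M K₁ M₁ : Type) [Field K]
    [NumberField K] [Field M] [NumberField M] [Field K₁] [NumberField K₁] [Field M₁]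
    [NumberField M₁] [Algebra K M] [Algebra K K₁] [Algebra K M₁] [Algebra M M₁] [Algebra K₁ M₁]
    [IsScalarTower K M M₁] [IsScalarTower K K₁ M₁] [IsGalois K M] [IsGalois K K₁] [IsGalois K M₁]
    (ε : K₁) (δ : M ≃ₐ[K] M) (P : (ZMod p)[X]) [Fact (Irreducible P)]
    (B : Base p K M K₁ M₁ ε δ P) (L : Pool.Agent.Helper51.SigLeo.IwasawaLog p k)
    (T : Set (K →+* k)) (aτ : K₁ˣ) (n : ℕ) (E : TauN n B L T aτ)

include hp in
open Classical in
/-- `N_LOW` for `sysN`, `K₁` totally complex. -/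
theorem low [IsTotallyComplex K₁] (h1 : P_LAB) (h2 : N_CHB) (h3 : N_CHS) (h4 : N_SPL)
    (hfam : ∃ b, (sysN B E).Fam b) :
    ∃ c X₀ : ℝ, 0 < c ∧ ∀ X : ℝ, X₀ ≤ X → ∃ P' : Finset B.LP,
    c * (X * gK (((p : ℝ) - 1) / finrank K K₁) X) ≤
      ∑ b ∈ P'.powerset with (sysN B E).Fam b, Real.exp (-((sysN B E).nm b / X)) := by
  classical
  obtain ⟨C, hC⟩ := h2 K
  have hp1 : (0 : ℝ) < (p : ℝ) - 1 := by
    have : (2 : ℝ) ≤ p := by exact_mod_cast hp.out.two_le
    linarith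
  have hCh := h3 K K₁ B.S ((p : ℝ) - 1) hp1
  -- the classes
  set c : HeightOneSpectrum (𝓞 K) → (Fin B.t → ZMod p) := fun v j ↦ B.cl j v with hc
  set τ : Fin B.t → ZMod p := fun j ↦ B.ch j aτ with hτ
  have hspan : τ ∈ Submodule.span (ZMod p) (c '' B.calP) := by
    obtain ⟨b, -, hb⟩ := hfam
    have hb' : τ = ∑ q ∈ b, ((q.1.2 : (ZMod p)ˣ) : ZMod p) • c q.1.1 := by
      rw [show τ = (sysN B E).cl₀ from rfl, ← hb]
      rfl
    rw [hb']
    exact Submodule.sum_mem _ fun q _ ↦ Submodule.smul_mem _ _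
      (Submodule.subset_span ⟨q.1.1, q.2, rfl⟩)
  obtain ⟨c₁, c₂, X₀, hc₁, -, hlab⟩ := h1 p (HeightOneSpectrum (𝓞 K)) nv C hC B.calP hCh
    (Fin B.t → ZMod p) c τ hspan
  obtain ⟨C', hC'⟩ := h4 K K₁ B.S
  set κ : ℝ := ((p : ℝ) - 1) / finrank K K₁ with hκ
  refine ⟨Real.exp (-1) * (c₁ * Real.exp (-(((p : ℝ) - 1) * C'))), max X₀ 3, by positivity, ?_⟩
  intro X hX
  have hX0 : X₀ ≤ X := (le_max_left _ _).trans hX
  have hX3 : 3 ≤ X := (le_max_right _ _).trans hX
  have hXpos : 0 < X := by linarith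
  obtain ⟨hfin, hlow, -⟩ := hlab X hX0
  -- the analytic lower bound
  have hlog1 : 1 ≤ Real.log X := by
    rw [Real.le_log_iff_exp_le hXpos]
    exact (Real.exp_one_lt_d9.le.trans (by norm_num)).trans hX3
  have hlog0 : 0 < Real.log X := by linarith
  have hms : ms nv (B.calP.indicator fun _ ↦ ((p : ℝ) - 1)) X =
      ((p : ℝ) - 1) * ms nv (B.calP.indicator fun _ ↦ (1 : ℝ)) X := by
    unfold ms
    rw [Finset.mul_sum]
    refine Finset.sum_congr rfl fun q _ ↦ ?_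
    by_cases hq : q ∈ B.calP
    · rw [Set.indicator_of_mem hq, Set.indicator_of_mem hq]; ring
    · rw [Set.indicator_of_notMem hq, Set.indicator_of_notMem hq]; ring
  have hms2 : κ * Real.log (Real.log X) - ((p : ℝ) - 1) * C' ≤
      ms nv (B.calP.indicator fun _ ↦ ((p : ℝ) - 1)) X := by
    rw [hms]
    have h5 := (abs_le.1 (hC' X (by linarith))).1
    have h6 : 1 / (finrank K K₁ : ℝ) * Real.log (Real.log X) - C' ≤
        ms nv (B.calP.indicator fun _ ↦ (1 : ℝ)) X := by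
      have : ms nv ((Spl K₁ B.S).indicator fun _ ↦ (1 : ℝ)) X =
        ms nv (B.calP.indicator fun _ ↦ (1 : ℝ)) X := rfl
      linarith
    have h7 := mul_le_mul_of_nonneg_left h6 hp1.le
    calc κ * Real.log (Real.log X) - ((p : ℝ) - 1) * C'
        = ((p : ℝ) - 1) * (1 / (finrank K K₁ : ℝ) * Real.log (Real.log X) - C') := by
          rw [hκ]; ring
      _ ≤ _ := h7
  have hgK : gK κ X = Real.log X ^ (κ - 1) := by
    unfold gK
    rw [max_eq_right (by linarith : (1 : ℝ) ≤ X), max_eq_right hlog1]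
  have hmag : Real.exp (-(((p : ℝ) - 1) * C')) * (X * gK κ X) ≤
      mag nv (B.calP.indicator fun _ ↦ ((p : ℝ) - 1)) X := by
    unfold mag
    have h5 : Real.exp (κ * Real.log (Real.log X) - ((p : ℝ) - 1) * C') =
        Real.exp (-(((p : ℝ) - 1) * C')) * Real.log X ^ κ := by
      rw [sub_eq_add_neg, Real.exp_add, Real.rpow_def_of_pos hlog0]
      ring_nf
    have h6 : Real.log X ^ κ = Real.log X ^ (κ - 1) * Real.log X := by
      rw [Real.rpow_sub_one hlog0.ne']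
      field_simp
    calc Real.exp (-(((p : ℝ) - 1) * C')) * (X * gK κ X)
        = X / Real.log X * Real.exp (κ * Real.log (Real.log X) - ((p : ℝ) - 1) * C') := by
          rw [h5, h6, hgK]; field_simp
      _ ≤ X / Real.log X * Real.exp (ms nv (B.calP.indicator fun _ ↦ ((p : ℝ) - 1)) X) := by
          refine mul_le_mul_of_nonneg_left (Real.exp_le_exp.2 hms2) (by positivity)
  -- the injection
  set P' : Finset B.LP := (sysN B E).upto X with hP'
  refine ⟨P', ?_⟩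
  have hmemP : ∀ q : B.LP, q ∈ P' ↔ (nv q.1.1 : ℝ) ≤ X := by
    intro q
    rw [hP', Sys.upto, Set.Finite.mem_toFinset, Set.mem_ofPred_eq,
      show (sysN B E).N q = nv q.1.1 from rfl, Nat.le_floor_iff hXpos.le]
  let Φ : (HeightOneSpectrum (𝓞 K) →₀ ZMod p) → Finset B.LP := fun e ↦
    P'.filter fun q ↦ ((q.1.2 : (ZMod p)ˣ) : ZMod p) = e q.1.1
  have hone : ∀ (s : Finset (HeightOneSpectrum (𝓞 K))) (v : HeightOneSpectrum (𝓞 K)), v ∈ s →
      nv v ≤ nb nv s := by
    intro s v hv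
    unfold nb
    refine Finset.single_le_prod' (f := nv) (fun w _ ↦ ?_) hv
    have := hC.two w
    omega
  have hunit : ∀ e ∈ labs p nv B.calP c τ X, ∀ v ∈ e.support, ∃ q ∈ Φ e, q.1.1 = v := by
    intro e he v hv
    have h0 : e v ≠ 0 := Finsupp.mem_support_iff.1 hv
    refine ⟨⟨(v, Units.mk0 (e v) h0), he.1 v hv⟩, ?_, rfl⟩
    refine Finset.mem_filter.2 ⟨(hmemP _).2 ?_, rfl⟩
    refine le_trans ?_ he.2.1
    exact_mod_cast hone e.support v hv
  have hsupp : ∀ e, ∀ q ∈ Φ e, q.1.1 ∈ e.support := by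
    intro e q hq
    rw [Finsupp.mem_support_iff, ← (Finset.mem_filter.1 hq).2]
    exact q.1.2.ne_zero
  have hinjb : ∀ e, ∀ q ∈ Φ e, ∀ q' ∈ Φ e, q.1.1 = q'.1.1 → q = q' := by
    intro e q hq q' hq' h
    have h5 := (Finset.mem_filter.1 hq).2
    have h6 := (Finset.mem_filter.1 hq').2
    refine Subtype.ext (Prod.ext h (Units.ext ?_))
    rw [h5, h6, h]
  have hnm : ∀ e ∈ labs p nv B.calP c τ X, (sysN B E).nm (Φ e) = nb nv e.support := by
    intro e he
    unfold Sys.nm nb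
    refine Finset.prod_nbij (fun q ↦ q.1.1) (hsupp e) ?_ ?_ ?_
    · intro q hq q' hq' h
      exact hinjb e q hq q' hq' h
    · intro v hv
      obtain ⟨q, hq, hqv⟩ := hunit e he v hv
      exact ⟨q, hq, hqv⟩
    · intro q hq
      rfl
  have hFam : ∀ e ∈ labs p nv B.calP c τ X, (sysN B E).Fam (Φ e) := by
    intro e he
    refine ⟨fun q hq q' hq' h ↦ hinjb e q hq q' hq' h, ?_⟩
    rw [show (sysN B E).cl₀ = τ from rfl, ← he.2.2]
    refine Finset.sum_nbij (fun q ↦ q.1.1) (hsupp e) ?_ ?_ ?_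
    · intro q hq q' hq' h
      exact hinjb e q hq q' hq' h
    · intro v hv
      obtain ⟨q, hq, hqv⟩ := hunit e he v hv
      exact ⟨q, hq, hqv⟩
    · intro q hq
      rw [← (Finset.mem_filter.1 hq).2]
      rfl
  have hinj : Set.InjOn Φ (labs p nv B.calP c τ X) := by
    intro e he e' he' h
    ext v
    by_cases h0 : e v = 0
    · by_cases h0' : e' v = 0
      · rw [h0, h0']
      · exfalso
        obtain ⟨q, hq, hqv⟩ := hunit e' he' v (Finsupp.mem_support_iff.2 h0')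
        have h5 := hsupp e q (by rw [h]; exact hq)
        rw [hqv] at h5
        exact (Finsupp.mem_support_iff.1 h5) h0
    · obtain ⟨q, hq, hqv⟩ := hunit e he v (Finsupp.mem_support_iff.2 h0)
      have h5 := (Finset.mem_filter.1 hq).2
      have h6 : q ∈ Φ e' := by rw [← h]; exact hq
      have h7 := (Finset.mem_filter.1 h6).2
      rw [← hqv, ← h5, h7]
  set Lf := hfin.toFinset with hLf
  have hcard : ((Lf.image Φ).card : ℝ) = ((labs p nv B.calP c τ X).ncard : ℝ) := by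
    rw [Finset.card_image_of_injOn (by rw [hLf, Set.Finite.coe_toFinset]; exact hinj),
      Set.ncard_eq_toFinset_card _ hfin]
  have hsum : ((Lf.image Φ).card : ℝ) * Real.exp (-1) ≤
      ∑ b ∈ P'.powerset with (sysN B E).Fam b, Real.exp (-((sysN B E).nm b / X)) := by
    rw [← nsmul_eq_mul, ← Finset.sum_const]
    refine le_trans (Finset.sum_le_sum (g := fun b ↦ Real.exp (-((sysN B E).nm b / X))) ?_)
      (Finset.sum_le_sum_of_subset_of_nonneg ?_ fun b _ _ ↦ (Real.exp_pos _).le)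
    · intro b hb
      obtain ⟨e, he, rfl⟩ := Finset.mem_image.1 hb
      have he' : e ∈ labs p nv B.calP c τ X := (Set.Finite.mem_toFinset hfin).1 he
      refine Real.exp_le_exp.2 (neg_le_neg ?_)
      rw [hnm e he', div_le_one hXpos]
      exact he'.2.1
    · intro b hb
      obtain ⟨e, he, rfl⟩ := Finset.mem_image.1 hb
      have he' : e ∈ labs p nv B.calP c τ X := (Set.Finite.mem_toFinset hfin).1 he
      exact Finset.mem_filter.2 ⟨Finset.mem_powerset.2 (Finset.filter_subset _ _), hFam e he'⟩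
  calc Real.exp (-1) * (c₁ * Real.exp (-(((p : ℝ) - 1) * C'))) * (X * gK κ X)
      = Real.exp (-1) * (c₁ * (Real.exp (-(((p : ℝ) - 1) * C')) * (X * gK κ X))) := by ring
    _ ≤ Real.exp (-1) * (c₁ * mag nv (B.calP.indicator fun _ ↦ ((p : ℝ) - 1)) X) := by
        gcongr
    _ ≤ Real.exp (-1) * ((labs p nv B.calP c τ X).ncard : ℝ) := by gcongr
    _ = ((Lf.image Φ).card : ℝ) * Real.exp (-1) := by rw [hcard]; ring
    _ ≤ _ := hsum


include hp in
open Classical in
/-- `N_HYP` for `sysN`, without `mern`. -/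
theorem sv0 (h1 : N_LAB) (h2 : H_CHE) (h3 : H_HT) (h4 : H_MER) (h5 : H_G)
    (hdv : finrank K K₁ ∣ p - 1) (A : ℝ) : ∃ K₀ : ℕ, ∀ K' : ℕ, K₀ ≤ K' →
    SV0 (sysN B E) (gK (((p : ℝ) - 1) / finrank K K₁)) A K' := by
  have hp1 : 1 < p := hp.out.one_lt
  have hd0 : 0 < finrank K K₁ := finrank_pos
  have hdM : 0 < finrank K M₁ := finrank_pos
  set κ : ℝ := ((p : ℝ) - 1) / finrank K K₁ with hκ
  have hpr : (0 : ℝ) < (p : ℝ) - 1 := by
    have : (1 : ℝ) < p := by exact_mod_cast hp1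
    linarith
  have hκ1 : 1 ≤ κ := by
    rw [hκ, le_div_iff₀ (by exact_mod_cast hd0), one_mul]
    have h : finrank K K₁ ≤ p - 1 := Nat.le_of_dvd (by omega) hdv
    have h' : ((finrank K K₁ : ℕ) : ℝ) ≤ ((p - 1 : ℕ) : ℝ) := by exact_mod_cast h
    rwa [Nat.cast_sub hp1.le, Nat.cast_one] at h'
  set κs : ℝ := ((p : ℝ) - 1) / finrank K M₁ with hκs
  have hκs0 : 0 < κs := div_pos hpr (by exact_mod_cast hdM)
  obtain ⟨C, hC, hms⟩ := h1 p K M K₁ M₁ ε δ P B
  obtain ⟨K1, hK1⟩ := h2 C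
  obtain ⟨K2, hK2⟩ := h3 C κ A hκ1
  obtain ⟨K3, hK3⟩ := h4 C κs
  obtain ⟨g1, g2, g3, -⟩ := h5 κ hκ1
  have hN : PSys (sysN B E).N C := hC
  obtain ⟨K₀, hK₀⟩ := exists_nat_ge (max 1 (max (max K1 K2) (max K3 (max (2 ^ (κ - 1)) (1 / κs)))))
  refine ⟨K₀, fun K' hK' ↦ ?_⟩
  have hr : max 1 (max (max K1 K2) (max K3 (max (2 ^ (κ - 1)) (1 / κs)))) ≤ (K' : ℝ) :=
    hK₀.trans (by exact_mod_cast hK')
  have r0 : (1 : ℝ) ≤ K' := (le_max_left _ _).trans hr
  have r' := (le_max_right _ _).trans hr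
  have r1 : K1 ≤ K' := ((le_max_left _ _).trans (le_max_left _ _)).trans r'
  have r2 : K2 ≤ K' := ((le_max_right _ _).trans (le_max_left _ _)).trans r'
  have r'' := (le_max_right _ _).trans r'
  have r3 : K3 ≤ K' := (le_max_left _ _).trans r''
  have r4 : (2 : ℝ) ^ (κ - 1) ≤ K' := ((le_max_left _ _).trans (le_max_right _ _)).trans r''
  have r5 : 1 / κs ≤ K' := ((le_max_right _ _).trans (le_max_right _ _)).trans r''
  have hK0' : (0 : ℝ) < K' := by linarith
  have hup : ∀ x : ℝ, 2 ≤ x → ms (sysN B E).N (fun _ ↦ 1) x ≤ κ * Real.log (Real.log x) + C := by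
    intro x hx
    have := (abs_le.1 (hms x hx).1).2
    have e : ms (sysN B E).N (fun _ ↦ 1) x = ms (fun q : B.LP ↦ nv q.1.1) (fun _ ↦ 1) x := rfl
    rw [e]
    linarith
  exact
    { one_le := by exact_mod_cast r0
      che := fun j hj ↦ (hK1 p B.LP _ _ _ _ _ (sysN B E) hN j hj).trans
        (div_le_div_of_nonneg_right r1 (by positivity))
      g_one := g1
      g_mono := fun Y X h ↦ by
        have h5 := g2 Y X h
        have h6 := g1 X
        nlinarith
      g_dbl := fun Y ↦ (g3 Y).trans (mul_le_mul_of_nonneg_right r4 (by linarith [g1 Y]))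
      ht := fun f hf Y hY Q ↦ by
        refine (hK2 p B.LP _ _ _ _ _ (sysN B E) hN hup f hf Y hY Q).trans ?_
        have h6 : 0 ≤ Y * min 1 Y * gK κ Y := by
          have := g1 Y
          have : 0 ≤ min 1 Y := le_min zero_le_one hY.le
          positivity
        exact mul_le_mul_of_nonneg_right (mul_le_mul_of_nonneg_right r2 h6) (Real.exp_pos _).le
      mers := fun m' n' hm hmn ↦ by
        have h6 := hK3 p B.LP _ _ _ _ _ (sysN B E) {q | q.1.1 ∈ B.Vis} hN
          (fun x hx ↦ (hms x hx).2) m' n' hm hmn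
        have h7 : 0 ≤ Real.log ((n' : ℝ) / m') := by
          apply Real.log_nonneg
          rw [le_div_iff₀ (by exact_mod_cast hm), one_mul]
          exact_mod_cast hmn
        have h8 : 1 / (K' : ℝ) ≤ κs := by
          rw [div_le_iff₀ hK0']
          rw [div_le_iff₀ hκs0] at r5
          linarith
        have h9 : (1 / K' : ℝ) * Real.log (n' / m') - K' ≤ κs * Real.log (n' / m') - K3 := by
          have := mul_le_mul_of_nonneg_right h8 h7
          linarith
        exact h9.trans h6 }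

end

end Pool.Agent.Helper77.PPO
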